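import Pool.Agent.Helper80.QR.FAM

open MeasureTheory Measure Set Function Filter Topology
open scoped ENNReal

namespace Pool.Agent.Helper80.QR

section Swap
variable {ι κ X : Type*} {mX : MeasurableSpace X} (μ : ι → κ → Measure X)
  [hμ : ∀ i j, IsProbabilityMeasure (μ i j)]

theorem measurable_swap : Measurable (fun (F : ι → κ → X) j i => F i j) := by
  rw [measurable_pi_iff]; intro j
  rw [measurable_pi_iff]; intro i
  exact (measurable_pi_apply j).comp (measurable_pi_apply i)

theorem map_swap :
    (infinitePi fun i : ι => infinitePi fun j : κ => μ i j).map (fun F j i => F i j)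
      = infinitePi fun j : κ => infinitePi fun i : ι => μ i j := by
  have h1 := infinitePi_map_curry_symm μ
  have h2 := infinitePi_map_curry (fun (j : κ) (i : ι) => μ i j)
  have h3 := infinitePi_map_piCongrLeft (X := fun _ : κ × ι => X) (fun p : κ × ι => μ p.2 p.1)
    (Equiv.prodComm ι κ)
  simp only [Equiv.prodComm_apply, Prod.fst_swap, Prod.snd_swap] at h3
  rw [← h1] at h3
  rw [← h3, Measure.map_map, Measure.map_map] at h2
  · rw [← h2]
    congr 1
  all_goals fun_prop

end Swap

section Pair
variable {A : Type} [MeasurableSpace A] (γ δ : Measure A) [IsProbabilityMeasure γ]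
  [IsProbabilityMeasure δ]

theorem measurable_pair :
    Measurable (fun (p : (ℕ → A) × (ℕ → A)) n => (p.1 n, p.2 n)) := by
  rw [measurable_pi_iff]; intro n
  exact ((measurable_pi_apply n).comp measurable_fst).prodMk
    ((measurable_pi_apply n).comp measurable_snd)

theorem map_pair :
    ((infinitePi fun _ : ℕ => γ).prod (infinitePi fun _ : ℕ => δ)).map
      (fun p n => (p.1 n, p.2 n)) = infinitePi (fun _ : ℕ => γ.prod δ) := by
  let μ : Fin 2 → Measure A := ![γ, δ]
  have : ∀ i, IsProbabilityMeasure (μ i) := by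
    intro i; fin_cases i
    · exact (inferInstance : IsProbabilityMeasure γ)
    · exact (inferInstance : IsProbabilityMeasure δ)
  have h1 := measurePreserving_piFinTwo (fun i : Fin 2 => (infinitePi fun _ : ℕ => μ i))
  rw [← infinitePi_eq_pi] at h1
  have h2 := measurePreserving_piFinTwo μ
  rw [← infinitePi_eq_pi] at h2
  have h3 := map_swap (fun (i : Fin 2) (_ : ℕ) => μ i)
  have h4 := infinitePi_map_pi (fun _ : ℕ => infinitePi μ) (f := fun _ G =>
    MeasurableEquiv.piFinTwo (fun _ => A) G) (fun _ => MeasurableEquiv.measurable _)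
  rw [h2.map_eq] at h4
  rw [← h3, Measure.map_map] at h4
  · have h5 := h1.map_eq
    change _ = (infinitePi fun _ : ℕ => γ).prod (infinitePi fun _ : ℕ => δ) at h5
    change _ = infinitePi (fun _ : ℕ => γ.prod δ) at h4
    rw [← h4, ← h5, Measure.map_map]
    · rfl
    · exact measurable_pair
    · exact MeasurableEquiv.measurable _
  · rw [measurable_pi_iff]; intro n
    exact (MeasurableEquiv.measurable _).comp (measurable_pi_apply n)
  · exact measurable_swap

end Pair

/-- realise a coin as an OR of a smaller coin with an independent one -/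
theorem exists_or (β γ : Measure Bool) [IsProbabilityMeasure β] [IsProbabilityMeasure γ]
    (h : γ {true} ≤ β {true}) :
    ∃ δ : Measure Bool, IsProbabilityMeasure δ ∧
      (γ.prod δ).map (fun p : Bool × Bool => p.1 || p.2) = β := by
  have hm : Measurable (fun p : Bool × Bool => p.1 || p.2) := measurable_of_countable _
  set c := γ {true} with hc
  set b := β {true} with hb
  have hc1 : c ≤ 1 := prob_le_one
  have hb1 : b ≤ 1 := prob_le_one
  have key : ∀ δ : Measure Bool, IsProbabilityMeasure δ → (1 - c) * δ {false} = 1 - b →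
      (γ.prod δ).map (fun p : Bool × Bool => p.1 || p.2) = β := by
    intro δ hδ hd
    have : IsProbabilityMeasure ((γ.prod δ).map (fun p : Bool × Bool => p.1 || p.2)) :=
      isProbabilityMeasure_map hm.aemeasurable
    have hf : (γ.prod δ).map (fun p : Bool × Bool => p.1 || p.2) {false} = β {false} := by
      rw [map_apply hm (MeasurableSet.singleton _)]
      have : (fun p : Bool × Bool => p.1 || p.2) ⁻¹' {false} = {false} ×ˢ {false} := by
        ext ⟨x, y⟩; cases x <;> cases y <;> simp
      rw [this, prod_prod, false_eq (β := γ), false_eq (β := β), ← hc, ← hb, hd]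
    refine ext_bool ?_ hf
    have e1 : ∀ (ζ : Measure Bool) [IsProbabilityMeasure ζ], ζ {true} = 1 - ζ {false} := by
      intro ζ _
      rw [← prob_compl_eq_one_sub (MeasurableSet.singleton _)]
      congr 1
      ext b; cases b <;> simp
    rw [e1 ((γ.prod δ).map (fun p : Bool × Bool => p.1 || p.2)), e1 β, hf]
  rcases eq_or_ne c 1 with hc' | hc'
  · refine ⟨coin 1, isProb_coin le_rfl, key _ (isProb_coin le_rfl) ?_⟩
    have : b = 1 := le_antisymm hb1 (hc' ▸ h)
    rw [coin_false, this, tsub_self, mul_zero]
  · have h1c : 1 - c ≠ 0 := by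
      intro h0
      exact hc' (le_antisymm hc1 (tsub_eq_zero_iff_le.1 h0))
    have h1c' : 1 - c ≠ ⊤ := ne_top_of_le_ne_top ENNReal.one_ne_top tsub_le_self
    have hq : (1 - b) / (1 - c) ≤ 1 := by
      rw [ENNReal.div_le_iff h1c h1c', one_mul]
      exact tsub_le_tsub_left h 1
    refine ⟨coin (1 - (1 - b) / (1 - c)), isProb_coin tsub_le_self,
      key _ (isProb_coin tsub_le_self) ?_⟩
    rw [coin_false, ENNReal.sub_sub_cancel ENNReal.one_ne_top hq]
    exact ENNReal.mul_div_cancel h1c h1c'

/-- transfer of thickness from a small coin to a larger coin. -/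
theorem thick_or {β γ : Measure Bool} [IsProbabilityMeasure β] [IsProbabilityMeasure γ]
    (h : γ {true} ≤ β {true}) {S : Set (ℕ → Bool)} (hS : Thick (rho γ) S) :
    Thick (rho β) {r | ∃ s ∈ S, St s ⊆ St r} := by
  obtain ⟨δ, hδ, hor⟩ := exists_or β γ h
  have hm : Measurable (fun p : Bool × Bool => p.1 || p.2) := measurable_of_countable _
  have hT : Thick ((rho γ).prod (rho δ)) {p | p.1 ∈ S ∧ p.2 ∈ (Set.univ : Set (ℕ → Bool))} :=
    Thick.prod hS (fun _ _ => measure_univ)
  have h1 := map_pair γ δ
  have h2 := infinitePi_map_pi (fun _ : ℕ => γ.prod δ) (f := fun _ p => p.1 || p.2)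
    (fun _ => hm)
  rw [hor, ← h1, Measure.map_map] at h2
  · refine Thick.image (φ := fun (p : (ℕ → Bool) × (ℕ → Bool)) n => p.1 n || p.2 n) ⟨?_, h2⟩ hT ?_
    · rw [measurable_pi_iff]; intro n
      have h3 : Measurable (fun (p : (ℕ → Bool) × (ℕ → Bool)) => (p.1 n, p.2 n)) :=
        ((measurable_pi_apply n).comp measurable_fst).prodMk
          ((measurable_pi_apply n).comp measurable_snd)
      exact hm.comp h3
    · rintro ⟨r, s⟩ ⟨hr, _⟩
      refine ⟨r, hr, fun n hn => ?_⟩
      simp only [St, mem_ofPred_eq] at hn ⊢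
      simp [hn]
  · rw [measurable_pi_iff]; intro n
    exact hm.comp (measurable_pi_apply n)
  · exact measurable_pair

end Pool.Agent.Helper80.QR
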