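import Pool.Agent.Helper80.QR.Thick

open MeasureTheory Measure Set Function
open scoped ENNReal

namespace Pool.Agent.Helper80.QR

/-! ### Finitely additive measures on `ℕ` -/

/-- The set coded by a 0-1 sequence. -/
def St (r : ℕ → Bool) : Set ℕ := {n | r n = true}

/-- nonnegative finitely additive set function on `ℕ` vanishing on finite sets -/
structure FAM where
  m : Set ℕ → ℝ
  nonneg : ∀ a, 0 ≤ m a
  add : ∀ a b, Disjoint a b → m (a ∪ b) = m a + m b
  fin : ∀ a, a.Finite → m a = 0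

namespace FAM
variable (ν : FAM)

theorem empty : ν.m ∅ = 0 := ν.fin ∅ Set.finite_empty

theorem split (a b : Set ℕ) : ν.m a = ν.m (a ∩ b) + ν.m (a \ b) := by
  rw [← ν.add _ _ (Set.disjoint_sdiff_inter.symm), Set.inter_union_sdiff]

theorem mono {a b : Set ℕ} (h : a ⊆ b) : ν.m a ≤ ν.m b := by
  rw [ν.split b a, Set.inter_eq_right.2 h]
  linarith [ν.nonneg (b \ a)]

theorem mono' {a b : Set ℕ} (h : (a \ b).Finite) : ν.m a ≤ ν.m b := by
  rw [ν.split a b, ν.fin _ h, add_zero]
  exact ν.mono Set.inter_subset_right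

theorem congr' {a b : Set ℕ} (h : (a \ b).Finite) (h' : (b \ a).Finite) : ν.m a = ν.m b :=
  le_antisymm (ν.mono' h) (ν.mono' h')

open Classical in
/-- counting inequality -/
theorem count (k : ℕ) (F : ℕ → Set ℕ) (y : Set ℕ) (t : ℝ)
    (h : ∀ n ∈ y, t ≤ ((Finset.range k).filter (fun i => n ∈ F i)).card) :
    t * ν.m y ≤ ∑ i ∈ Finset.range k, ν.m (F i ∩ y) := by
  induction k generalizing y t with
  | zero =>
    simp only [Finset.range_zero, Finset.filter_empty, Finset.card_empty, Nat.cast_zero] at h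
    simp only [Finset.range_zero, Finset.sum_empty]
    rcases Set.eq_empty_or_nonempty y with hy | ⟨n, hn⟩
    · rw [hy, ν.empty, mul_zero]
    · exact mul_nonpos_of_nonpos_of_nonneg (h n hn) (ν.nonneg y)
  | succ k ih =>
    have h1 := ih (y ∩ F k) (t - 1) (by
      intro n hn
      have := h n hn.1
      rw [Finset.range_add_one, Finset.filter_insert, if_pos hn.2, Finset.card_insert_of_notMem
        (by simp)] at this
      push_cast at this
      linarith)
    have h2 := ih (y \ F k) t (by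
      intro n hn
      have := h n hn.1
      rw [Finset.range_add_one, Finset.filter_insert, if_neg hn.2] at this
      exact this)
    rw [Finset.sum_range_succ]
    have h3 : ∑ i ∈ Finset.range k, ν.m (F i ∩ y) = ∑ i ∈ Finset.range k, ν.m (F i ∩ (y ∩ F k))
        + ∑ i ∈ Finset.range k, ν.m (F i ∩ (y \ F k)) := by
      rw [← Finset.sum_add_distrib]
      refine Finset.sum_congr rfl (fun i _ => ?_)
      rw [ν.split (F i ∩ y) (F k), Set.inter_assoc, Set.inter_sdiff_assoc]
    have h4 := ν.split y (F k)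
    rw [h3, Set.inter_comm (F k) y, h4, mul_add]
    rw [sub_mul, one_mul] at h1
    linarith

/-- `Good x c` : for every non-trivial coin, the random subset has large mass in `x`, thickly. -/
def Good (x : Set ℕ) (c : ℝ) : Prop :=
  ∀ β : Measure Bool, ∀ _ : IsProbabilityMeasure β, β {true} ≠ 0 →
    Thick (infinitePi (fun _ : ℕ => β)) {r | c ≤ ν.m (St r ∩ x)}

noncomputable def w (x : Set ℕ) : ℝ := sSup {c | 0 ≤ c ∧ ν.Good x c}

theorem Good.anti {ν : FAM} {x : Set ℕ} {c c' : ℝ} (h : ν.Good x c) (hc : c' ≤ c) :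
    ν.Good x c' := fun β hβ h0 => (h β hβ h0).mono (fun _ hr => hc.trans hr)

theorem good_zero (x : Set ℕ) : ν.Good x 0 := by
  intro β hβ _
  have : {r : ℕ → Bool | 0 ≤ ν.m (St r ∩ x)} = Set.univ := by
    ext r; simp [ν.nonneg]
  rw [this]
  exact measure_univ

theorem Good.le {ν : FAM} {x : Set ℕ} {c : ℝ} (h : ν.Good x c) : c ≤ ν.m x := by
  obtain ⟨r, hr⟩ := (h (dirac true) inferInstance (by simp)).nonempty
  exact hr.trans (ν.mono Set.inter_subset_right)

theorem bddAbove_w (x : Set ℕ) : BddAbove {c | 0 ≤ c ∧ ν.Good x c} :=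
  ⟨ν.m x, fun _ hc => hc.2.le⟩

theorem w_nonneg (x : Set ℕ) : 0 ≤ ν.w x := le_csSup (ν.bddAbove_w x) ⟨le_rfl, ν.good_zero x⟩

theorem le_w {x : Set ℕ} {c : ℝ} (h : ν.Good x c) (hc : 0 ≤ c) : c ≤ ν.w x :=
  le_csSup (ν.bddAbove_w x) ⟨hc, h⟩

theorem nonempty_w (x : Set ℕ) : {c | 0 ≤ c ∧ ν.Good x c}.Nonempty := ⟨0, le_rfl, ν.good_zero x⟩

theorem good_of_lt {x : Set ℕ} {c : ℝ} (hc : c < ν.w x) : ν.Good x c := by
  obtain ⟨c', ⟨_, hc'⟩, hlt⟩ := exists_lt_of_lt_csSup (ν.nonempty_w x) hc
  exact hc'.anti hlt.le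

theorem w_mono {a b : Set ℕ} (h : (a \ b).Finite) : ν.w a ≤ ν.w b := by
  apply csSup_le (ν.nonempty_w a)
  rintro c ⟨hc0, hc⟩
  refine ν.le_w (fun β hβ h0 => (hc β hβ h0).mono (fun r hr => ?_)) hc0
  refine le_trans hr (ν.mono' (h.subset ?_))
  rintro n ⟨⟨hn1, hn2⟩, hn3⟩
  exact ⟨hn2, fun hb => hn3 ⟨hn1, hb⟩⟩

theorem w_scale (ν' : FAM) {κ : ℝ} (hκ : 0 ≤ κ) (h : ∀ a, κ * ν.m a ≤ ν'.m a) (x : Set ℕ) :
    κ * ν.w x ≤ ν'.w x := by
  by_contra hlt
  push Not at hlt
  have hκ' : 0 < κ := by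
    rcases hκ.eq_or_lt with h0 | h0
    · rw [← h0, zero_mul] at hlt
      exact absurd (ν'.w_nonneg x) (not_le.2 hlt)
    · exact h0
  have h1 : ν'.w x / κ < ν.w x := by
    rw [div_lt_iff₀ hκ']; linarith
  obtain ⟨c, hc1, hc2⟩ := exists_between h1
  have hgood := ν.good_of_lt hc2
  have hc0 : 0 ≤ c := le_trans (div_nonneg (ν'.w_nonneg x) hκ) hc1.le
  have : ν'.Good x (κ * c) := fun β hβ h0 => (hgood β hβ h0).mono (fun r hr =>
    le_trans (mul_le_mul_of_nonneg_left hr hκ) (h _))
  have h2 := ν'.le_w this (mul_nonneg hκ hc0)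
  rw [div_lt_iff₀ hκ'] at hc1
  linarith

end FAM

/-! ### Coins -/

/-- the coin with success probability `p` -/
noncomputable def coin (p : ℝ≥0∞) : Measure Bool := p • dirac true + (1 - p) • dirac false

theorem coin_true (p : ℝ≥0∞) : coin p {true} = p := by
  simp [coin]

theorem coin_false (p : ℝ≥0∞) : coin p {false} = 1 - p := by
  simp [coin]

theorem isProb_coin {p : ℝ≥0∞} (hp : p ≤ 1) : IsProbabilityMeasure (coin p) :=
  ⟨by simp [coin, add_tsub_cancel_of_le hp]⟩

theorem ext_bool {β γ : Measure Bool} (ht : β {true} = γ {true}) (hf : β {false} = γ {false}) :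
    β = γ := by
  apply Measure.ext_of_singleton
  intro b
  cases b
  · exact hf
  · exact ht

theorem false_eq {β : Measure Bool} [IsProbabilityMeasure β] : β {false} = 1 - β {true} := by
  have h : ({true} : Set Bool)ᶜ = {false} := by ext b; cases b <;> simp
  rw [← h, prob_compl_eq_one_sub (MeasurableSet.singleton _)]

theorem ext_bool' {β γ : Measure Bool} [IsProbabilityMeasure β] [IsProbabilityMeasure γ]
    (ht : β {true} = γ {true}) : β = γ :=
  ext_bool ht (by rw [false_eq, false_eq, ht])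

/-- fair coin -/
noncomputable def fair : Measure Bool := coin (1 / 2)

instance : IsProbabilityMeasure fair := isProb_coin (by norm_num)

/-- i.i.d. coin sequences -/
noncomputable abbrev rho (β : Measure Bool) : Measure (ℕ → Bool) := infinitePi (fun _ : ℕ => β)

theorem map_not_rho : (rho fair).map (fun r n => !r n) = rho fair := by
  unfold rho
  rw [infinitePi_map_pi (f := fun _ b => !b) _ (fun _ => measurable_of_countable _)]
  congr 1
  funext n
  have hm : Measurable (fun b : Bool => !b) := measurable_of_countable _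
  have : IsProbabilityMeasure (map (fun b => !b) fair) := isProbabilityMeasure_map hm.aemeasurable
  apply ext_bool'
  rw [map_apply hm (MeasurableSet.singleton _)]
  have : (fun b : Bool => !b) ⁻¹' {true} = {false} := by ext b; cases b <;> simp
  rw [this]
  unfold fair
  rw [coin_true, coin_false]
  norm_num

end Pool.Agent.Helper80.QR
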