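import Pool.Agent.Helper80.QR.Coins

open MeasureTheory Measure Set Function Filter Topology ProbabilityTheory
open scoped ENNReal

namespace Pool.Agent.Helper80.QR

noncomputable def bv (b : Bool) : ℝ := if b = true then 1 else 0

theorem measurable_bv : Measurable bv := measurable_of_countable _

theorem abs_bv_le (b : Bool) : ‖bv b‖ ≤ 1 := by
  unfold bv; cases b <;> simp

noncomputable def thr (k : ℕ) (t : ℝ) (b : ℕ → Bool) : Bool :=
  decide ((∑ i ∈ Finset.range k, bv (b i)) < k * t)

theorem measurable_sumbv (k : ℕ) :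
    Measurable (fun b : ℕ → Bool => ∑ i ∈ Finset.range k, bv (b i)) :=
  Finset.measurable_sum _ (fun i _ => measurable_bv.comp (measurable_pi_apply i))

theorem measurable_thr (k : ℕ) (t : ℝ) : Measurable (thr k t) := by
  apply measurable_to_bool
  have : thr k t ⁻¹' {true} = {b | (∑ i ∈ Finset.range k, bv (b i)) < k * t} := by
    ext b; simp [thr]
  rw [this]
  exact measurableSet_lt (measurable_sumbv k) measurable_const

theorem integral_bv : ∫ b, bv b ∂fair = 1 / 2 := by
  unfold fair coin
  rw [integral_add_measure, integral_smul_measure, integral_smul_measure, integral_dirac,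
    integral_dirac]
  · simp [bv]
  · exact (Integrable.of_bound (measurable_bv.aestronglyMeasurable) 1
      (Eventually.of_forall abs_bv_le)).smul_measure (by simp)
  · exact (Integrable.of_bound (measurable_bv.aestronglyMeasurable) 1
      (Eventually.of_forall abs_bv_le)).smul_measure (by simp)

theorem exists_small {t : ℝ} (ht : t < 1 / 2) {p : ℝ≥0∞} (hp : p ≠ 0) :
    ∃ k, 0 < k ∧ (rho fair).map (thr k t) {true} ≤ p := by
  let X : ℕ → (ℕ → Bool) → ℝ := fun i b => bv (b i)
  have hXm : ∀ i, Measurable (X i) := fun i => measurable_bv.comp (measurable_pi_apply i)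
  have hident : ∀ i, IdentDistrib (X i) (X 0) (rho fair) (rho fair) := by
    intro i
    refine ⟨(hXm i).aemeasurable, (hXm 0).aemeasurable, ?_⟩
    have e : ∀ i, map (X i) (rho fair) = map bv fair := by
      intro i
      have := infinitePi_map_eval (fun _ : ℕ => fair) i
      conv_rhs => rw [← this]
      rw [Measure.map_map measurable_bv (measurable_pi_apply i)]
      rfl
    rw [e, e]
  have hind : iIndepFun X (rho fair) :=
    iIndepFun_infinitePi (P := fun _ : ℕ => fair) (X := fun _ => bv) (fun _ => measurable_bv)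
  have hint : Integrable (X 0) (rho fair) :=
    Integrable.of_bound (hXm 0).aestronglyMeasurable 1 (Eventually.of_forall fun b => abs_bv_le _)
  have hE : ∫ b, X 0 b ∂(rho fair) = 1 / 2 := by
    rw [← integral_bv]
    have := infinitePi_map_eval (fun _ : ℕ => fair) 0
    conv_rhs => rw [← this]
    rw [integral_map (measurable_pi_apply 0).aemeasurable measurable_bv.aestronglyMeasurable]
  have hslln := strong_law_ae_real X hint (fun i j hij => hind.indepFun hij) hident
  rw [hE] at hslln
  have htm := tendstoInMeasure_of_tendsto_ae (μ := rho fair)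
    (f := fun n b => (∑ i ∈ Finset.range n, X i b) / n) (g := fun _ => (1 / 2 : ℝ))
    (fun n => ((measurable_sumbv n).div_const _).aestronglyMeasurable) hslln
  have h2 := htm (ENNReal.ofReal (1 / 2 - t)) (by simpa using ht)
  have h3 : ∀ᶠ n : ℕ in atTop, (rho fair) {x | ENNReal.ofReal (1 / 2 - t) ≤
      edist ((∑ i ∈ Finset.range n, X i x) / n) ((1 / 2 : ℝ))} < p :=
    h2.eventually (gt_mem_nhds (pos_iff_ne_zero.2 hp))
  obtain ⟨k, hk, hk0⟩ := (h3.and (eventually_gt_atTop 0)).exists
  refine ⟨k, hk0, ?_⟩
  rw [map_apply (measurable_thr k t) (MeasurableSet.singleton _)]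
  refine le_trans (measure_mono ?_) hk.le
  intro b hb
  simp only [thr, mem_preimage, mem_singleton_iff, decide_eq_true_eq] at hb
  simp only [mem_ofPred_eq, edist_dist, Real.dist_eq]
  apply ENNReal.ofReal_le_ofReal
  have hk' : (0 : ℝ) < k := by exact_mod_cast hk0
  have : (∑ i ∈ Finset.range k, X i b) / k < t := by
    rw [div_lt_iff₀ hk']
    linarith
  rw [abs_sub_comm]
  refine le_trans ?_ (le_abs_self _)
  linarith

theorem card_filter_eq (k : ℕ) (F : ℕ → ℕ → Bool) (n : ℕ) [DecidablePred fun i => n ∈ St (F i)] :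
    (((Finset.range k).filter (fun i => n ∈ St (F i))).card : ℝ)
      = ∑ i ∈ Finset.range k, bv (F i n) := by
  rw [Finset.card_filter]
  push_cast
  refine Finset.sum_congr rfl (fun i _ => ?_)
  by_cases h : F i n = true <;> simp [bv, St, h]

theorem FAM.factC_aux (ν : FAM) (x : Set ℕ) (c : ℝ)
    (h : Thick (rho fair) {f | ν.m (St f ∩ x) < c}) (hc : 2 * c < ν.m x) :
    ∃ c', 0 < c' ∧ ν.Good x c' := by
  classical
  have hc0 : 0 < c := by
    obtain ⟨f, hf⟩ := h.nonempty
    exact lt_of_le_of_lt (ν.nonneg _) hf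
  set M := ν.m x with hM
  have hM0 : 0 < M := by linarith
  obtain ⟨t, ht1, ht2⟩ : ∃ t : ℝ, c / M < t ∧ t < 1 / 2 := by
    apply exists_between
    rw [div_lt_div_iff₀ hM0 (by norm_num)]
    linarith
  have ht0 : 0 < t := lt_trans (div_pos hc0 hM0) ht1
  rw [div_lt_iff₀ hM0] at ht1
  refine ⟨M - c / t, ?_, ?_⟩
  · have : c / t < M := by rw [div_lt_iff₀ ht0]; linarith
    linarith
  intro β hβ hβ0
  obtain ⟨k, hk0, hk⟩ := exists_small ht2 hβ0
  have hk' : (0 : ℝ) < k := by exact_mod_cast hk0
  have hm := measurable_thr k t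
  have hγ : IsProbabilityMeasure ((rho fair).map (thr k t)) := isProbabilityMeasure_map hm.aemeasurable
  have hT := thick_seq (fun _ : ℕ => rho fair) (fun _ _ => {f | ν.m (St f ∩ x) < c})
    (fun _ _ _ _ => rfl) (fun _ _ => h)
  have h1 := map_swap (fun (_ : ℕ) (_ : ℕ) => fair)
  have h2 := infinitePi_map_pi (fun _ : ℕ => rho fair) (f := fun _ b => thr k t b)
    (fun _ => hm)
  unfold rho at h2
  rw [← h1, Measure.map_map] at h2
  · have hS : Thick (rho ((rho fair).map (thr k t))) {r | M - c / t ≤ ν.m (St r ∩ x)} := by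
      refine Thick.image (φ := fun (F : ℕ → ℕ → Bool) n => thr k t (fun i => F i n)) ⟨?_, h2⟩ hT ?_
      · rw [measurable_pi_iff]; intro n
        refine hm.comp ?_
        rw [measurable_pi_iff]; intro i
        exact (measurable_pi_apply n).comp (measurable_pi_apply i)
      · intro F hF
        simp only [mem_ofPred_eq] at hF ⊢
        set r : ℕ → Bool := fun n => thr k t (fun i => F i n) with hr
        have hcount := ν.count k (fun i => St (F i)) (x \ St r) (k * t) (by
          intro n hn
          have hn2 : r n ≠ true := hn.2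
          simp only [hr, thr, ne_eq, decide_eq_true_eq, not_lt] at hn2
          rw [card_filter_eq]
          exact hn2)
        have hle : ∑ i ∈ Finset.range k, ν.m (St (F i) ∩ (x \ St r)) ≤ k * c := by
          calc ∑ i ∈ Finset.range k, ν.m (St (F i) ∩ (x \ St r))
              ≤ ∑ i ∈ Finset.range k, c := Finset.sum_le_sum (fun i _ =>
                le_trans (ν.mono (Set.inter_subset_inter_right _ Set.sdiff_subset)) (hF i).le)
            _ = k * c := by simp
        have h5 : t * ν.m (x \ St r) ≤ c := by
          have h6 : k * (t * ν.m (x \ St r)) ≤ k * c := by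
            rw [← mul_assoc]; exact hcount.trans hle
          exact le_of_mul_le_mul_left h6 hk'
        have h7 : ν.m (x \ St r) ≤ c / t := by
          rw [le_div_iff₀ ht0]; linarith
        have h8 := ν.split x (St r)
        rw [Set.inter_comm] at h8
        linarith
    exact (thick_or hk hS).mono (by
      rintro r ⟨s, hs, hsr⟩
      exact le_trans hs (ν.mono (Set.inter_subset_inter_left _ hsr)))
  · rw [measurable_pi_iff]; intro n
    exact hm.comp (measurable_pi_apply n)
  · exact measurable_swap

theorem St_not (f : ℕ → Bool) : St (fun n => !f n) = (St f)ᶜ := by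
  ext n; simp [St]

theorem FAM.factC (ν : FAM) (x : Set ℕ) (h : ν.w x = 0) :
    ∀ᵐ f ∂(rho fair), ν.m (St f ∩ x) = ν.m x / 2 := by
  set M := ν.m x with hM
  have hnm : Measurable (fun (r : ℕ → Bool) n => !r n) := by
    rw [measurable_pi_iff]; intro n
    exact (measurable_of_countable (fun b : Bool => !b)).comp (measurable_pi_apply n)
  have hmp : MeasurePreserving (fun (r : ℕ → Bool) n => !r n) (rho fair) (rho fair) :=
    ⟨hnm, map_not_rho⟩
  have key : (rho fair) {f | ν.m (St f ∩ x) < M / 2} = 0 := by
    by_contra hne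
    have hU : {f | ν.m (St f ∩ x) < M / 2} ⊆
        ⋃ q : {q : ℚ // 2 * (q : ℝ) < M}, {f | ν.m (St f ∩ x) < (q : ℚ)} := by
      intro f hf
      obtain ⟨q, hq1, hq2⟩ := exists_rat_btwn (mem_ofPred_eq ▸ hf)
      simp only [mem_iUnion, mem_ofPred_eq]
      exact ⟨⟨q, by linarith⟩, hq1⟩
    have : ∃ q : {q : ℚ // 2 * (q : ℝ) < M}, (rho fair) {f | ν.m (St f ∩ x) < (q : ℚ)} ≠ 0 := by
      by_contra hcon
      push Not at hcon
      exact hne (measure_mono_null hU (measure_iUnion_null hcon))
    obtain ⟨q, hq⟩ := this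
    have hthick := thick_of_tail (fun _ : ℕ => fair) (T := {f | ν.m (St f ∩ x) < (q : ℚ)}) (by
      intro f hf i z
      simp only [mem_ofPred_eq] at hf ⊢
      refine lt_of_le_of_lt (ν.mono' ((Set.finite_singleton i).subset ?_)) hf
      rintro n ⟨⟨hn1, hn2⟩, hn3⟩
      by_contra hni
      apply hn3
      refine ⟨?_, hn2⟩
      simp only [St, mem_ofPred_eq] at hn1 ⊢
      rwa [Function.update_of_ne hni] at hn1) hq
    obtain ⟨c', hc', hgood⟩ := ν.factC_aux x q hthick q.2
    have := ν.le_w hgood hc'.le
    linarith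
  have key2 : (rho fair) {f | M / 2 < ν.m (St f ∩ x)} = 0 := by
    have h1 := hmp.quasiMeasurePreserving.preimage_null key
    refine measure_mono_null ?_ h1
    intro f hf
    simp only [mem_preimage, mem_ofPred_eq] at hf ⊢
    rw [St_not]
    have h2 := ν.split x (St f)
    have h3 : (St f)ᶜ ∩ x = x \ St f := by
      ext n; simp [and_comm]
    rw [h3]
    rw [Set.inter_comm x (St f)] at h2
    linarith
  rw [ae_iff]
  refine measure_mono_null ?_ (measure_union_null key key2)
  intro f hf
  simp only [mem_ofPred_eq] at hf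
  rcases lt_or_gt_of_ne hf with h1 | h1
  · exact Or.inl h1
  · exact Or.inr h1

end Pool.Agent.Helper80.QR
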