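import Pool.Agent.Helper80.QR.FactC

open MeasureTheory Measure Set Function Filter Topology ProbabilityTheory
open scoped ENNReal

namespace Pool.Agent.Helper80.QR

/-- the `j`-th coin of the construction -/
noncomputable def cj (j : ℕ) : Measure Bool := coin ((2 : ℝ≥0∞)⁻¹ ^ (j + 2))

theorem half_pow_le_one (j : ℕ) : ((2 : ℝ≥0∞)⁻¹ ^ j) ≤ 1 :=
  pow_le_one' (by simp) _

instance (j : ℕ) : IsProbabilityMeasure (cj j) := isProb_coin (half_pow_le_one _)

theorem cj_true (j : ℕ) : cj j {true} = (2 : ℝ≥0∞)⁻¹ ^ (j + 2) := coin_true _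

theorem cj_true_ne (j : ℕ) : cj j {true} ≠ 0 := by
  rw [cj_true]
  apply pow_ne_zero
  simp

/-- points not covered by the first `j` sets -/
def xs (h : ℕ → ℕ → Bool) (j : ℕ) : Set ℕ := {n | ∀ i < j, h i n = false}

/-- the residual set -/
def dd (h : ℕ → ℕ → Bool) : Set ℕ := {n | ∀ i ≤ n, h i n = false}

theorem xs_zero (h : ℕ → ℕ → Bool) : xs h 0 = Set.univ := by
  ext n; simp [xs]

theorem xs_succ (h : ℕ → ℕ → Bool) (j : ℕ) : xs h (j + 1) = xs h j \ St (h j) := by
  ext n
  simp only [xs, St, mem_ofPred_eq, Set.mem_sdiff]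
  constructor
  · intro hn
    exact ⟨fun i hi => hn i (by omega), by simp [hn j (by omega)]⟩
  · rintro ⟨h1, h2⟩ i hi
    rcases Nat.lt_succ_iff_lt_or_eq.1 hi with h3 | h3
    · exact h1 i h3
    · subst h3; simpa using h2

theorem dd_sub (h : ℕ → ℕ → Bool) (j : ℕ) : (dd h \ xs h j).Finite := by
  refine (Set.finite_lt_nat j).subset ?_
  rintro n ⟨h1, h2⟩
  simp only [dd, xs, mem_ofPred_eq, not_forall] at h1 h2 ⊢
  obtain ⟨i, hi, hne⟩ := h2
  by_contra hcon
  exact hne (h1 i (by omega))

theorem FAM.factD (ν : FAM) :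
    Thick (infinitePi (fun j => rho (cj j))) {h | ν.w (dd h) = 0} := by
  have hT := thick_seq (fun j => rho (cj j))
    (fun k h => {r | ν.w (xs h k) - (1 / 2) ^ k ≤ ν.m (St r ∩ xs h k)})
    (by
      intro k h h' hh
      have : xs h k = xs h' k := by
        ext n; simp only [xs, mem_ofPred_eq]
        constructor
        · intro H i hi; rw [← hh i hi]; exact H i hi
        · intro H i hi; rw [hh i hi]; exact H i hi
      rw [this])
    (by
      intro k h
      exact ν.good_of_lt (sub_lt_self _ (by positivity)) (cj k) inferInstance (cj_true_ne k))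
  refine hT.mono ?_
  intro h hh
  simp only [mem_ofPred_eq] at hh ⊢
  have h1 : ∀ N, ∑ j ∈ Finset.range N, ν.m (St (h j) ∩ xs h j) + ν.m (xs h N) = ν.m Set.univ := by
    intro N
    induction N with
    | zero => simp [xs_zero]
    | succ N ih =>
      rw [Finset.sum_range_succ, xs_succ, ← ih]
      have := ν.split (xs h N) (St (h N))
      rw [Set.inter_comm] at this
      linarith
  have h2 : ∀ N, ∑ j ∈ Finset.range N, ((1 : ℝ) / 2) ^ j ≤ 2 := fun N =>
    (sum_geometric_two_le N)
  have h3 : ∀ N : ℕ, (N : ℝ) * ν.w (dd h) ≤ ν.m Set.univ + 2 := by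
    intro N
    have e1 : (N : ℝ) * ν.w (dd h) = ∑ j ∈ Finset.range N, ν.w (dd h) := by simp
    rw [e1]
    calc ∑ j ∈ Finset.range N, ν.w (dd h)
        ≤ ∑ j ∈ Finset.range N, (ν.m (St (h j) ∩ xs h j) + (1 / 2) ^ j) := by
          refine Finset.sum_le_sum (fun j _ => ?_)
          have := ν.w_mono (dd_sub h j)
          have := hh j
          linarith
      _ = ∑ j ∈ Finset.range N, ν.m (St (h j) ∩ xs h j) + ∑ j ∈ Finset.range N, (1 / 2) ^ j :=
          Finset.sum_add_distrib
      _ ≤ _ := by
          have := h1 N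
          have := h2 N
          have := ν.nonneg (xs h N)
          linarith
  apply le_antisymm _ (ν.w_nonneg _)
  by_contra hpos
  push Not at hpos
  obtain ⟨N, hN⟩ := exists_nat_gt ((ν.m Set.univ + 2) / ν.w (dd h))
  rw [div_lt_iff₀ hpos] at hN
  exact absurd (h3 N) (not_le.2 hN)

/-- countable combination -/
noncomputable def FAM.comb {ι : Type*} [Encodable ι] (m : ι → FAM) : FAM :=
  have hs : ∀ a, Summable (fun i => (1 / 2 : ℝ) ^ (Encodable.encode i) *
      ((m i).m a / (1 + (m i).m Set.univ))) := by
    intro a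
    refine Summable.of_nonneg_of_le (fun i => ?_) (fun i => ?_)
      (summable_geometric_two_encode (ι := ι))
    · have := (m i).nonneg a
      have := (m i).nonneg Set.univ
      positivity
    · have h1 := (m i).nonneg a
      have h2 := (m i).nonneg Set.univ
      have h3 := (m i).mono (Set.subset_univ a)
      apply mul_le_of_le_one_right (by positivity)
      rw [div_le_one (by linarith)]
      linarith
  { m := fun a => ∑' i, (1 / 2 : ℝ) ^ (Encodable.encode i) *
      ((m i).m a / (1 + (m i).m Set.univ))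
    nonneg := fun a => tsum_nonneg (fun i => by
      have := (m i).nonneg a
      have := (m i).nonneg Set.univ
      positivity)
    add := fun a b hab => by
      rw [← (hs a).tsum_add (hs b)]
      refine tsum_congr (fun i => ?_)
      rw [(m i).add a b hab]
      ring
    fin := fun a ha => by
      have : ∀ i, (1 / 2 : ℝ) ^ (Encodable.encode i) *
        ((m i).m a / (1 + (m i).m Set.univ)) = 0 := fun i => by
          rw [(m i).fin a ha]; simp
      rw [tsum_congr this, tsum_zero] }

theorem FAM.comb_summable {ι : Type*} [Encodable ι] (m : ι → FAM) (a : Set ℕ) :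
    Summable (fun i => (1 / 2 : ℝ) ^ (Encodable.encode i) *
      ((m i).m a / (1 + (m i).m Set.univ))) := by
  refine Summable.of_nonneg_of_le (fun i => ?_) (fun i => ?_)
    (summable_geometric_two_encode (ι := ι))
  · have := (m i).nonneg a
    have := (m i).nonneg Set.univ
    positivity
  · have h1 := (m i).nonneg a
    have h2 := (m i).nonneg Set.univ
    have h3 := (m i).mono (Set.subset_univ a)
    apply mul_le_of_le_one_right (by positivity)
    rw [div_le_one (by linarith)]
    linarith

theorem FAM.comb_w {ι : Type*} [Encodable ι] (m : ι → FAM) (x : Set ℕ)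
    (h : (FAM.comb m).w x = 0) (i : ι) : (m i).w x = 0 := by
  have hU := (m i).nonneg Set.univ
  have hκ : (0 : ℝ) < (1 / 2 : ℝ) ^ (Encodable.encode i) / (1 + (m i).m Set.univ) := by positivity
  have h1 := (m i).w_scale (FAM.comb m) hκ.le (by
    intro a
    have h2 := (FAM.comb_summable m a).le_tsum i (fun j _ => by
      have := (m j).nonneg a
      have := (m j).nonneg Set.univ
      positivity)
    refine le_trans (le_of_eq ?_) h2
    ring) x
  rw [h] at h1
  have h2 := (m i).w_nonneg x
  have h3 : (m i).w x ≤ 0 := by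
    by_contra hcon
    push Not at hcon
    have := mul_pos hκ hcon
    linarith
  exact le_antisymm h3 h2

/-- the law on `W` -/
noncomputable def muW : Measure ((ℕ → ℕ → Bool) × (ℕ → Bool)) :=
  (infinitePi (fun j => rho (cj j))).prod (rho fair)

instance : IsProbabilityMeasure muW := by unfold muW; infer_instance

theorem thick_all {ι : Type*} [Encodable ι] (m : ι → FAM) :
    Thick muW {p | ∀ i, (m i).m (St p.2 ∩ dd p.1) = (m i).m (dd p.1) / 2} := by
  have h := Thick.prod (FAM.factD (FAM.comb m))
    (T := fun h => {f | ∀ i, (m i).m (St f ∩ dd h) = (m i).m (dd h) / 2})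
    (ν := rho fair) (by
      intro h hh
      apply thick_of_conull
      have : ∀ᵐ f ∂(rho fair), ∀ i, (m i).m (St f ∩ dd h) = (m i).m (dd h) / 2 :=
        ae_all_iff.2 (fun i => (m i).factC (dd h) (FAM.comb_w m (dd h) hh i))
      rw [ae_iff] at this
      exact this)
  exact h.mono (fun p hp => hp.2)

end Pool.Agent.Helper80.QR
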