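import Pool.Agent.Helper80.QR.WLaw

open MeasureTheory Measure Set Function Filter Topology ProbabilityTheory
open scoped ENNReal BoundedContinuousFunction

namespace Pool.Agent.Helper80.QR

/-! ### Functionals on `ℓ^∞` -/

theorem smulL_apply (c : ℝ) (y : L) (n : ℕ) : (c • y) n = c * y n := rfl

/-- coefficients of a functional -/
noncomputable def cf (φ : L →L[ℝ] ℝ) (n : ℕ) : ℝ := φ (chi {n})

theorem cf_sum_le (φ : L →L[ℝ] ℝ) (s : Finset ℕ) : ∑ n ∈ s, |cf φ n| ≤ ‖φ‖ := by
  classical
  have h1 : ∑ n ∈ s, |cf φ n| = φ (∑ n ∈ s, (SignType.sign (cf φ n) : ℝ) • chi {n}) := by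
    rw [_root_.map_sum]
    refine Finset.sum_congr rfl (fun n _ => ?_)
    rw [map_smul, smul_eq_mul, ← cf, sign_mul_self]
  rw [h1]
  calc φ (∑ n ∈ s, (SignType.sign (cf φ n) : ℝ) • chi {n})
      ≤ ‖φ (∑ n ∈ s, (SignType.sign (cf φ n) : ℝ) • chi {n})‖ := le_abs_self _
    _ ≤ ‖φ‖ * ‖∑ n ∈ s, (SignType.sign (cf φ n) : ℝ) • chi {n}‖ := φ.le_opNorm _
    _ ≤ ‖φ‖ * 1 := by
        refine mul_le_mul_of_nonneg_left ?_ (by positivity)
        rw [BoundedContinuousFunction.norm_le (by norm_num : (0 : ℝ) ≤ 1)]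
        intro m
        rw [BoundedContinuousFunction.coe_sum, Finset.sum_apply]
        have : ∀ n ∈ s, ((SignType.sign (cf φ n) : ℝ) • chi {n}) m =
            if n = m then (SignType.sign (cf φ n) : ℝ) else 0 := by
          intro n _
          rw [smulL_apply]
          by_cases h : n = m
          · subst h; rw [chi_apply_mem (Set.mem_singleton _), if_pos rfl, mul_one]
          · rw [chi_apply_notMem (by simpa using fun hh => h hh.symm), if_neg h, mul_zero]
        rw [Finset.sum_congr rfl this, Finset.sum_ite_eq' s m]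
        split_ifs
        · rcases lt_trichotomy (cf φ m) 0 with h | h | h
          · simp [sign_neg h]
          · simp [h]
          · simp [sign_pos h]
        · simp
    _ = ‖φ‖ := mul_one _

theorem cf_summable (φ : L →L[ℝ] ℝ) : Summable (fun n => |cf φ n|) :=
  summable_of_sum_le (fun _ => abs_nonneg _) (cf_sum_le φ)

theorem cf_mul_summable (φ : L →L[ℝ] ℝ) (y : L) : Summable (fun n => cf φ n * y n) := by
  refine Summable.of_norm_bounded ((cf_summable φ).mul_right ‖y‖) (fun n => ?_)
  rw [norm_mul]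
  exact mul_le_mul_of_nonneg_left (y.norm_coe_le_norm n) (abs_nonneg _)

/-- the `ℓ¹` part of a functional -/
noncomputable def phi0 (φ : L →L[ℝ] ℝ) : L →L[ℝ] ℝ :=
  LinearMap.mkContinuous
    { toFun := fun y => ∑' n, cf φ n * y n
      map_add' := fun y z => by
        rw [← (cf_mul_summable φ y).tsum_add (cf_mul_summable φ z)]
        refine tsum_congr (fun n => ?_)
        rw [BoundedContinuousFunction.add_apply]; ring
      map_smul' := fun c y => by
        rw [RingHom.id_apply, smul_eq_mul, ← tsum_mul_left]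
        refine tsum_congr (fun n => ?_)
        rw [smulL_apply]; ring }
    (∑' n, |cf φ n|) (by
      intro y
      change ‖∑' n, cf φ n * y n‖ ≤ _
      have h1 : Summable (fun n => ‖cf φ n * y n‖) := (cf_mul_summable φ y).norm
      refine (norm_tsum_le_tsum_norm h1).trans ?_
      rw [← tsum_mul_right]
      refine h1.tsum_le_tsum (fun n => ?_) ((cf_summable φ).mul_right ‖y‖)
      rw [norm_mul]
      exact mul_le_mul_of_nonneg_left (y.norm_coe_le_norm n) (abs_nonneg _))

theorem phi0_apply (φ : L →L[ℝ] ℝ) (y : L) : phi0 φ y = ∑' n, cf φ n * y n := rfl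

/-- the singular part of a functional -/
noncomputable def thetaOf (φ : L →L[ℝ] ℝ) : Theta :=
  ⟨φ - phi0 φ, by
    intro n
    rw [_root_.sub_apply, phi0_apply, tsum_eq_single n, chi_apply_mem (Set.mem_singleton _), mul_one, cf,
      sub_self]
    intro m hm
    rw [chi_apply_notMem (by simpa using hm), mul_zero]⟩

theorem thetaOf_apply (φ : L →L[ℝ] ℝ) (y : L) : φ y = phi0 φ y + (thetaOf φ).1 y := by
  simp [thetaOf]

theorem Theta.c0 (θ : Theta) (y : L) (hy : Tendsto (fun n => y n) atTop (𝓝 0)) : θ.1 y = 0 := by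
  have key : ∀ ε > 0, |θ.1 y| ≤ ‖θ.1‖ * ε := by
    intro ε hε
    obtain ⟨N, hN⟩ := (Metric.tendsto_atTop.1 hy) ε hε
    have h1 : θ.1 (∑ n ∈ Finset.range N, y n • chi {n}) = 0 := by
      rw [_root_.map_sum]
      refine Finset.sum_eq_zero (fun n _ => ?_)
      rw [map_smul, θ.2, smul_zero]
    have h2 : ‖y - ∑ n ∈ Finset.range N, y n • chi {n}‖ ≤ ε := by
      rw [BoundedContinuousFunction.norm_le hε.le]
      intro m
      rw [BoundedContinuousFunction.sub_apply, BoundedContinuousFunction.coe_sum, Finset.sum_apply]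
      have : ∀ n ∈ Finset.range N, (y n • chi {n}) m = if n = m then y n else 0 := by
        intro n _
        rw [smulL_apply]
        by_cases h : n = m
        · subst h; rw [chi_apply_mem (Set.mem_singleton _), if_pos rfl, mul_one]
        · rw [chi_apply_notMem (by simpa using fun hh => h hh.symm), if_neg h, mul_zero]
      rw [Finset.sum_congr rfl this, Finset.sum_ite_eq' (Finset.range N) m]
      split_ifs with hm
      · simp [hε.le]
      · rw [sub_zero]
        have := hN m (by simpa using hm)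
        rw [Real.dist_eq, sub_zero] at this
        exact this.le
    have h3 : θ.1 y = θ.1 (y - ∑ n ∈ Finset.range N, y n • chi {n}) := by
      rw [map_sub, h1, sub_zero]
    rw [h3]
    calc |θ.1 (y - ∑ n ∈ Finset.range N, y n • chi {n})|
        ≤ ‖θ.1‖ * ‖y - ∑ n ∈ Finset.range N, y n • chi {n}‖ := θ.1.le_opNorm _
      _ ≤ ‖θ.1‖ * ε := mul_le_mul_of_nonneg_left h2 (by positivity)
  have h0 : |θ.1 y| ≤ 0 := by
    have h1 : Tendsto (fun ε : ℝ => ‖θ.1‖ * ε) (𝓝[>] 0) (𝓝 (‖θ.1‖ * 0)) :=
      ((continuous_const.mul continuous_id).tendsto 0).mono_left nhdsWithin_le_nhds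
    rw [mul_zero] at h1
    exact ge_of_tendsto h1 (eventually_mem_nhdsWithin.mono (fun ε hε => key ε hε))
  exact abs_nonpos_iff.1 h0

/-! ### The Pettis integral -/

theorem norm_g_le (p : Wt) : ‖g p‖ ≤ 1 := by
  rw [BoundedContinuousFunction.norm_le (by norm_num : (0 : ℝ) ≤ 1)]
  intro n
  exact abs_g_le p n

section Pettis
variable {Ω : Type} [MeasurableSpace Ω] {μ : Measure Ω} [IsProbabilityMeasure μ] {π : Ω → Wt}
  (hπ : MeasurePreserving π μ muW)

include hπ

omit [IsProbabilityMeasure μ] in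
theorem meas_u (n : ℕ) : Measurable (fun ω => g (π ω) n) := (measurable_g n).comp hπ.measurable

omit [IsProbabilityMeasure μ] in
theorem int_u (n : ℕ) (ν : Measure Ω) [IsFiniteMeasure ν] : Integrable (fun ω => g (π ω) n) ν :=
  Integrable.of_bound (meas_u hπ n).aestronglyMeasurable 1
    (Eventually.of_forall fun ω => abs_g_le (π ω) n)

omit [IsProbabilityMeasure μ] in
theorem orth_u {n m : ℕ} (h : n ≠ m) : ∫ ω, g (π ω) n * g (π ω) m ∂μ = 0 := by
  rw [← integral_g_mul h, ← hπ.map_eq, integral_map hπ.measurable.aemeasurable]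
  exact ((measurable_g n).mul (measurable_g m)).aestronglyMeasurable

theorem bessel (E : Set Ω) (hE : MeasurableSet E) (N : ℕ) :
    ∑ n ∈ Finset.range N, (∫ ω in E, g (π ω) n ∂μ) ^ 2 ≤ 1 := by
  set a : ℕ → ℝ := fun n => ∫ ω in E, g (π ω) n ∂μ with ha
  set S : Ω → ℝ := fun ω => ∑ n ∈ Finset.range N, a n * g (π ω) n with hS
  have hSm : Measurable S := Finset.measurable_sum _ (fun n _ => (meas_u hπ n).const_mul _)
  have hSb : ∀ ω, ‖S ω‖ ≤ ∑ n ∈ Finset.range N, |a n| := by
    intro ω
    refine (norm_sum_le _ _).trans (Finset.sum_le_sum (fun n _ => ?_))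
    rw [norm_mul]
    exact mul_le_of_le_one_right (abs_nonneg _) (abs_g_le _ _)
  have hSi : ∀ ν : Measure Ω, IsFiniteMeasure ν → Integrable S ν := fun ν _ =>
    Integrable.of_bound hSm.aestronglyMeasurable _ (Eventually.of_forall hSb)
  have hSSi : Integrable (fun ω => S ω ^ 2) μ := by
    refine Integrable.of_bound (hSm.pow_const 2).aestronglyMeasurable
      ((∑ n ∈ Finset.range N, |a n|) ^ 2) (Eventually.of_forall fun ω => ?_)
    rw [norm_pow]
    exact pow_le_pow_left₀ (norm_nonneg _) (hSb ω) 2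
  have h1 : ∫ ω in E, S ω ∂μ = ∑ n ∈ Finset.range N, a n ^ 2 := by
    rw [hS, integral_finsetSum _ (fun n _ => (int_u hπ n _).const_mul _)]
    refine Finset.sum_congr rfl (fun n _ => ?_)
    rw [integral_const_mul]
    ring
  have h2 : ∫ ω, S ω ^ 2 ∂μ ≤ ∑ n ∈ Finset.range N, a n ^ 2 := by
    have e1 : ∀ ω, S ω ^ 2 = ∑ n ∈ Finset.range N, ∑ m ∈ Finset.range N,
        (a n * a m) * (g (π ω) n * g (π ω) m) := by
      intro ω
      rw [hS, pow_two, Finset.sum_mul_sum]
      refine Finset.sum_congr rfl (fun n _ => Finset.sum_congr rfl (fun m _ => by ring))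
    have hgi : ∀ n m, Integrable (fun ω => (a n * a m) * (g (π ω) n * g (π ω) m)) μ := by
      intro n m
      refine Integrable.const_mul ?_ _
      refine Integrable.of_bound ((meas_u hπ n).mul (meas_u hπ m)).aestronglyMeasurable 1
        (Eventually.of_forall fun ω => ?_)
      rw [norm_mul]
      exact mul_le_one₀ (abs_g_le _ _) (norm_nonneg _) (abs_g_le _ _)
    simp only [e1]
    rw [integral_finsetSum _ (fun n _ => integrable_finsetSum _ (fun m _ => hgi n m))]
    refine Finset.sum_le_sum (fun n hn => ?_)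
    rw [integral_finsetSum _ (fun m _ => hgi n m), Finset.sum_eq_single n]
    · rw [integral_const_mul]
      have : ∫ ω, g (π ω) n * g (π ω) n ∂μ ≤ 1 := by
        have h3 : ∫ ω, g (π ω) n * g (π ω) n ∂μ ≤ ∫ _, (1 : ℝ) ∂μ := by
          refine integral_mono ?_ (integrable_const _) (fun ω => ?_)
          · refine Integrable.of_bound ((meas_u hπ n).mul (meas_u hπ n)).aestronglyMeasurable 1
              (Eventually.of_forall fun ω => ?_)
            rw [norm_mul]
            exact mul_le_one₀ (abs_g_le _ _) (norm_nonneg _) (abs_g_le _ _)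
          · have := abs_g_le (π ω) n
            have h4 := abs_le.1 this
            change g (π ω) n * g (π ω) n ≤ 1
            nlinarith
        simpa using h3
      nlinarith [mul_self_nonneg (a n)]
    · intro m _ hmn
      rw [integral_const_mul, orth_u hπ hmn.symm, mul_zero]
    · intro h; exact absurd hn h
  have h3 : 0 ≤ ∫ ω, (E.indicator (fun _ => (1 : ℝ)) ω - S ω) ^ 2 ∂μ :=
    integral_nonneg (fun ω => sq_nonneg _)
  have h4 : ∀ ω, (E.indicator (fun _ => (1 : ℝ)) ω - S ω) ^ 2 =
      (E.indicator (fun _ => (1 : ℝ)) ω - 2 * E.indicator S ω) + S ω ^ 2 := by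
    intro ω
    by_cases hω : ω ∈ E
    · rw [Set.indicator_of_mem hω, Set.indicator_of_mem hω]; ring
    · rw [Set.indicator_of_notMem hω, Set.indicator_of_notMem hω]; ring
  simp only [h4] at h3
  rw [integral_add, integral_sub, integral_const_mul, integral_indicator hE, integral_indicator hE,
    h1] at h3
  · have h5 : ∫ _ in E, (1 : ℝ) ∂μ ≤ 1 := by
      simp only [integral_const, MeasurableSet.univ, measureReal_restrict_apply, univ_inter,
        smul_eq_mul, mul_one]
      exact measureReal_le_one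
    linarith
  · exact (integrable_const (1 : ℝ)).indicator hE
  · exact ((hSi μ inferInstance).indicator hE).const_mul 2
  · exact ((integrable_const (1 : ℝ)).indicator hE).sub (((hSi μ inferInstance).indicator hE).const_mul 2)
  · exact hSSi

theorem coeff_tendsto (E : Set Ω) (hE : MeasurableSet E) :
    Tendsto (fun n => ∫ ω in E, g (π ω) n ∂μ) atTop (𝓝 0) := by
  have hs : Summable (fun n => (∫ ω in E, g (π ω) n ∂μ) ^ 2) := by
    refine summable_of_sum_range_le (fun n => sq_nonneg _) (bessel hπ E hE)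
  have := hs.tendsto_atTop_zero
  have h2 := (Real.continuous_sqrt.tendsto 0).comp this
  rw [Real.sqrt_zero] at h2
  rw [tendsto_zero_iff_abs_tendsto_zero]
  refine h2.congr (fun n => ?_)
  simp [Real.sqrt_sq_eq_abs]

omit [IsProbabilityMeasure μ] in
theorem hasSum_phi0 (φ : L →L[ℝ] ℝ) (ν : Measure Ω) [IsFiniteMeasure ν] :
    HasSum (fun n => ∫ ω, cf φ n * g (π ω) n ∂ν) (∫ ω, phi0 φ (g (π ω)) ∂ν) := by
  have h := hasSum_integral_of_summable_integral_norm (μ := ν)
    (F := fun n ω => cf φ n * g (π ω) n) (fun n => (int_u hπ n ν).const_mul _) (by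
      refine Summable.of_nonneg_of_le (fun n => integral_nonneg (fun ω => norm_nonneg _))
        (fun n => ?_) ((cf_summable φ).mul_right (ν.real Set.univ))
      calc ∫ ω, ‖cf φ n * g (π ω) n‖ ∂ν ≤ ∫ _, |cf φ n| ∂ν := by
            refine integral_mono ((int_u hπ n ν).const_mul _).norm (integrable_const _)
              (fun ω => ?_)
            change ‖cf φ n * g (π ω) n‖ ≤ |cf φ n|
            rw [norm_mul]
            exact mul_le_of_le_one_right (abs_nonneg _) (abs_g_le _ _)
        _ = |cf φ n| * ν.real Set.univ := by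
            rw [integral_const, smul_eq_mul, mul_comm])
  exact h

omit [IsProbabilityMeasure μ] in
theorem measurable_phi0 (φ : L →L[ℝ] ℝ) : Measurable (fun ω => phi0 φ (g (π ω))) := by
  refine measurable_of_tendsto_metrizable (f := fun N ω => ∑ n ∈ Finset.range N, cf φ n * g (π ω) n)
    (fun N => Finset.measurable_sum _ (fun n _ => (meas_u hπ n).const_mul _)) ?_
  rw [tendsto_pi_nhds]
  intro ω
  exact (cf_mul_summable φ (g (π ω))).hasSum.tendsto_sum_nat

omit [IsProbabilityMeasure μ] in
theorem int_phi0 (φ : L →L[ℝ] ℝ) (ν : Measure Ω) [IsFiniteMeasure ν] :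
    Integrable (fun ω => phi0 φ (g (π ω))) ν := by
  refine Integrable.of_bound (measurable_phi0 hπ φ).aestronglyMeasurable (‖phi0 φ‖ * 1)
    (Eventually.of_forall fun ω => ?_)
  exact ((phi0 φ).le_opNorm _).trans (mul_le_mul_of_nonneg_left (norm_g_le _) (by positivity))

omit hπ in
theorem abs_coeff_le (E : Set Ω) (n : ℕ) : ‖∫ ω in E, g (π ω) n ∂μ‖ ≤ 1 := by
  calc ‖∫ ω in E, g (π ω) n ∂μ‖ ≤ 1 * (μ.restrict E).real Set.univ :=
        norm_integral_le_of_norm_le_const (Eventually.of_forall fun ω => abs_g_le (π ω) n)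
    _ ≤ 1 := by
        rw [one_mul]
        simp only [MeasurableSet.univ, measureReal_restrict_apply, univ_inter]
        exact measureReal_le_one

omit hπ in
variable (μ π) in
/-- the indefinite Pettis integral -/
noncomputable def xE (E : Set Ω) : L :=
  BoundedContinuousFunction.ofNormedAddCommGroupDiscrete (fun n => ∫ ω in E, g (π ω) n ∂μ) 1
    (fun n => abs_coeff_le E n)

omit hπ in
theorem xE_apply (E : Set Ω) (n : ℕ) : xE μ π E n = ∫ ω in E, g (π ω) n ∂μ := rfl

variable (hθ : ∀ θ : Theta, ∀ᵐ ω ∂μ, θ.1 (g (π ω)) = 0)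

include hθ

omit hπ in
omit [IsProbabilityMeasure μ] in
theorem pettis_ae (φ : L →L[ℝ] ℝ) :
    (fun ω => φ (g (π ω))) =ᵐ[μ] (fun ω => phi0 φ (g (π ω))) := by
  filter_upwards [hθ (thetaOf φ)] with ω hω
  rw [thetaOf_apply, hω, add_zero]

theorem pettis_int (φ : L →L[ℝ] ℝ) : Integrable (fun ω => φ (g (π ω))) μ :=
  (int_phi0 hπ φ μ).congr (pettis_ae hθ φ).symm

theorem pettis_eq (E : Set Ω) (hE : MeasurableSet E) (φ : L →L[ℝ] ℝ) :
    φ (xE μ π E) = ∫ ω in E, φ (g (π ω)) ∂μ := by
  rw [integral_congr_ae (ae_restrict_of_ae (pettis_ae hθ φ)), ← (hasSum_phi0 hπ φ _).tsum_eq,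
    thetaOf_apply, (thetaOf φ).c0 _ (coeff_tendsto hπ E hE), add_zero, phi0_apply]
  refine tsum_congr (fun n => ?_)
  rw [xE_apply, integral_const_mul]

/-- the sets on which `g_n > 0` -/
def Epos (π : Ω → Wt) (n : ℕ) : Set Ω := {ω | 0 < g (π ω) n}

omit hθ in
omit [IsProbabilityMeasure μ] in
theorem measurableSet_Epos (n : ℕ) : MeasurableSet (Epos π n) :=
  measurableSet_lt measurable_const (meas_u hπ n)

omit hθ in
omit [IsProbabilityMeasure μ] in
theorem integral_Epos (n m : ℕ) :
    ∫ ω in Epos π n, g (π ω) m ∂μ = ∫ p in {p | 0 < g p n}, g p m ∂muW := by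
  have hms : MeasurableSet {p : Wt | 0 < g p n} := measurableSet_lt measurable_const (measurable_g n)
  rw [← hπ.map_eq, setIntegral_map hms (measurable_g m).aestronglyMeasurable
    hπ.measurable.aemeasurable]
  rfl

theorem pettis_not_compact :
    ¬ IsCompact (closure {x : L | ∃ E : Set Ω, MeasurableSet E ∧
      ∀ φ : L →L[ℝ] ℝ, φ x = ∫ ω in E, φ (g (π ω)) ∂μ}) := by
  intro hc
  have hmem : ∀ n, xE μ π (Epos π n) ∈ closure {x : L | ∃ E : Set Ω, MeasurableSet E ∧
      ∀ φ : L →L[ℝ] ℝ, φ x = ∫ ω in E, φ (g (π ω)) ∂μ} := fun n =>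
    subset_closure ⟨Epos π n, measurableSet_Epos hπ n,
      pettis_eq hπ hθ _ (measurableSet_Epos hπ n)⟩
  obtain ⟨a, _, s, hs, hlim⟩ := hc.tendsto_subseq hmem
  have hcau := hlim.cauchySeq
  rw [Metric.cauchySeq_iff'] at hcau
  obtain ⟨N, hN⟩ := hcau (1 / 4) (by norm_num)
  have h1 := hN (N + 1) (Nat.le_succ N)
  have hne : s N ≠ s (N + 1) := (hs (Nat.lt_succ_self N)).ne
  have h2 : (1 : ℝ) / 4 ≤ dist (xE μ π (Epos π (s (N + 1)))) (xE μ π (Epos π (s N))) := by
    refine le_trans ?_ (BoundedContinuousFunction.dist_coe_le_dist (s (N + 1)))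
    rw [xE_apply, xE_apply, integral_Epos hπ, integral_Epos hπ, integral_pos_ne hne, Real.dist_eq,
      sub_zero]
    exact (integral_pos_self _).trans (le_abs_self _)
  exact absurd h1 (not_lt.2 h2)

end Pettis

end Pool.Agent.Helper80.QR
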