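import Pool.Agent.Helper80.QR.Sub
import Pool.Agent.Helper80.QR.Pettis

open MeasureTheory Measure Set Function Filter Topology TopologicalSpace
open scoped ENNReal

namespace Pool.Agent.Helper80.QR

/-! ### Full support of the law on `W` -/

theorem isOpenPos_coin {p : ℝ≥0∞} (h0 : p ≠ 0) (h1 : p < 1) : IsOpenPosMeasure (coin p) := by
  constructor
  rintro U _ ⟨b, hb⟩ hU
  have : coin p {b} = 0 := measure_mono_null (Set.singleton_subset_iff.2 hb) hU
  cases b
  · rw [coin_false] at this
    exact absurd (tsub_eq_zero_iff_le.1 this) (not_le.2 h1)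
  · rw [coin_true] at this
    exact h0 this

instance : IsOpenPosMeasure fair := isOpenPos_coin (by norm_num) (by norm_num)

instance (j : ℕ) : IsOpenPosMeasure (cj j) := by
  refine isOpenPos_coin (pow_ne_zero _ (by simp)) ?_
  exact pow_lt_one₀ zero_le (by simp) (by omega)

instance : IsOpenPosMeasure muW := by
  unfold muW
  infer_instance

/-! ### The big space -/

abbrev Idx : Type := Option Theta

noncomputable abbrev PP : Measure (Idx → Wt) := infinitePi (fun _ : Idx => muW)

/-- the base point -/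
def w0 : Wt := (fun _ _ => false, fun _ => false)

def DD : Set (Idx → Wt) := {x | ∀ θ : Theta, θ.1 (g (x none)) ≠ 0 → x (some θ) = w0}

theorem thick_DD : Thick PP DD := by
  classical
  rw [thick_iff]
  intro A hA hA0
  obtain ⟨J, A', hJ, hA', rfl⟩ := det_of_measurable hA
  set C : Set Theta := {θ | (some θ : Idx) ∈ J} with hC
  have hCc : C.Countable := hJ.preimage (Option.some_injective _)
  have hS := thick_zero hCc
  have hmS' : MeasurableSet ((fun p : Wt × (Idx → Wt) => Function.update p.2 (none : Idx) p.1) ⁻¹'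
      (J.domRestrict ⁻¹' A')) := (measurable_upd (X := fun _ : Idx => Wt) none) hA
  have h3 : (muW.prod PP) ((fun p : Wt × (Idx → Wt) => Function.update p.2 (none : Idx) p.1) ⁻¹'
      (J.domRestrict ⁻¹' A')) ≠ 0 := by
    rw [← map_apply (measurable_upd (X := fun _ : Idx => Wt) none) hA,
      map_update (fun _ : Idx => muW) none]
    exact hA0
  have h4 : muW {z | PP (Prod.mk z ⁻¹' ((fun p : Wt × (Idx → Wt) =>
      Function.update p.2 (none : Idx) p.1) ⁻¹' (J.domRestrict ⁻¹' A'))) ≠ 0} ≠ 0 := by
    intro h0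
    apply h3
    rw [measure_prod_null hmS']
    exact h0
  have h5 : MeasurableSet {z | PP (Prod.mk z ⁻¹' ((fun p : Wt × (Idx → Wt) =>
      Function.update p.2 (none : Idx) p.1) ⁻¹' (J.domRestrict ⁻¹' A'))) ≠ 0} :=
    ((measurable_measure_prodMk_left hmS') (measurableSet_singleton 0)).compl
  obtain ⟨z, hzS, hz⟩ := (thick_iff _ _).1 hS _ h5 h4
  obtain ⟨x, hx⟩ := nonempty_of_measure_ne_zero hz
  let y : Idx → Wt := fun i => match i with
    | none => z
    | some θ => if θ ∈ C then x (some θ) else w0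
  refine ⟨y, ?_, ?_⟩
  · intro θ hθ
    change θ.1 (g z) ≠ 0 at hθ
    have : θ ∉ C := fun h => hθ (hzS θ h)
    simp [y, this]
  · have hx' : (fun j : J => Function.update x (none : Idx) z j) ∈ A' := hx
    have hy : (fun j : J => y j) = (fun j : J => Function.update x (none : Idx) z j) := by
      funext j
      obtain ⟨j, hj⟩ := j
      cases j with
      | none => simp [y]
      | some θ =>
        have : θ ∈ C := hj
        simp [y, this]
    change (fun j : J => y j) ∈ A'
    rw [hy]
    exact hx'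

theorem main :
    ¬ (∀ (Ω : Type) [TopologicalSpace Ω] [MeasurableSpace Ω] (μ : Measure Ω),
      IsProbabilityMeasure μ → μ.IsComplete → OpensMeasurableSpace Ω →
      μ.InnerRegularWRT IsClosed MeasurableSet →
      (∀ 𝒰 : Set (Set Ω), (∀ U ∈ 𝒰, IsOpen U) → DirectedOn (· ⊆ ·) 𝒰 →
          μ (⋃₀ 𝒰) = ⨆ U ∈ 𝒰, μ U) →
      ∀ (X : Type) [NormedAddCommGroup X] [NormedSpace ℝ X] [CompleteSpace X] (f : Ω → X),
        (∀ φ : X →L[ℝ] ℝ, Integrable (fun ω => φ (f ω)) μ) →
        (∀ E : Set Ω, MeasurableSet E →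
            ∃ x : X, ∀ φ : X →L[ℝ] ℝ, φ x = ∫ ω in E, φ (f ω) ∂μ) →
        IsCompact (closure {x : X | ∃ E : Set Ω, MeasurableSet E ∧
            ∀ φ : X →L[ℝ] ℝ, φ x = ∫ ω in E, φ (f ω) ∂μ})) := by
  intro H
  let _ : MeasurableSpace DD := subSigma PP DD
  have hD := thick_DD
  have hprob : IsProbabilityMeasure (subMeas PP DD) := subMeas_prob hD
  have hval : MeasurePreserving (Subtype.val : DD → (Idx → Wt)) (subMeas PP DD) PP := sub_mp hD
  have hev : MeasurePreserving (fun x : Idx → Wt => x none) PP muW :=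
    measurePreserving_eval_infinitePi _ none
  have hπ : MeasurePreserving (fun ω : DD => ω.1 none) (subMeas PP DD) muW := hev.comp hval
  have hθ : ∀ θ : Theta, ∀ᵐ ω ∂(subMeas PP DD), θ.1 (g ((fun ω : DD => ω.1 none) ω)) = 0 := by
    intro θ
    have hev' : MeasurePreserving (fun x : Idx → Wt => x (some θ)) PP muW :=
      measurePreserving_eval_infinitePi _ (some θ)
    have h1 := (hev'.comp hval).measure_preimage
      (MeasurableSet.singleton w0).nullMeasurableSet
    rw [muW_singleton] at h1
    rw [ae_iff]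
    refine measure_mono_null ?_ h1
    intro ω hω
    exact ω.2 θ hω
  have := H DD (subMeas PP DD) hprob subMeas_complete sub_opens (sub_inner hD)
    (fun 𝒰 h1 h2 => sub_tau hD 𝒰 h1 h2) L (fun ω => g (ω.1 none))
    (pettis_int hπ hθ) (fun E hE => ⟨_, pettis_eq hπ hθ E hE⟩)
  exact pettis_not_compact hπ hθ this

end Pool.Agent.Helper80.QR
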