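import Pool.Agent.Helper80.QR.Top

open MeasureTheory Measure Set Function Filter Topology TopologicalSpace
open scoped ENNReal

namespace Pool.Agent.Helper80.QR

section Sub
variable {Z : Type*} [mZ : MeasurableSpace Z] (P : Measure Z) [IsProbabilityMeasure P] (D : Set Z)

/-- trace on `D` of the null-measurable sets -/
@[instance_reducible]
def subSigma : MeasurableSpace D where
  MeasurableSet' S := ∃ A : Set Z, NullMeasurableSet A P ∧ S = Subtype.val ⁻¹' A
  measurableSet_empty := ⟨∅, MeasurableSet.empty.nullMeasurableSet, by simp⟩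
  measurableSet_compl S := by
    rintro ⟨A, hA, rfl⟩
    exact ⟨Aᶜ, hA.compl, by simp⟩
  measurableSet_iUnion S hS := by
    choose A hA hSA using hS
    refine ⟨⋃ n, A n, NullMeasurableSet.iUnion hA, ?_⟩
    rw [Set.preimage_iUnion]
    exact Set.iUnion_congr hSA

omit [IsProbabilityMeasure P] in
theorem sub_le_caratheodory :
    subSigma P D ≤ (OuterMeasure.comap Subtype.val P.toOuterMeasure : OuterMeasure D).caratheodory := by
  rintro S ⟨A, hA, rfl⟩
  rw [OuterMeasure.isCaratheodory_iff]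
  intro T
  simp only [OuterMeasure.comap_apply]
  have h1 : (Subtype.val '' (T ∩ Subtype.val ⁻¹' A) : Set Z) = (Subtype.val '' T) ∩ A := by
    rw [Set.image_inter_preimage]
  have h2 : (Subtype.val '' (T \ Subtype.val ⁻¹' A) : Set Z) = (Subtype.val '' T) \ A := by
    rw [Set.image_sdiff_preimage]
  rw [h1, h2]
  exact (measure_inter_add_sdiff₀ _ hA).symm

/-- the subspace measure -/
noncomputable def subMeas : @Measure D (subSigma P D) :=
  @OuterMeasure.toMeasure D (subSigma P D)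
    (OuterMeasure.comap Subtype.val P.toOuterMeasure : OuterMeasure D) (sub_le_caratheodory P D)

variable {P D}

theorem subMeas_apply (hD : Thick P D) {A : Set Z} (hA : NullMeasurableSet A P) :
    subMeas P D (Subtype.val ⁻¹' A) = P A := by
  unfold subMeas
  rw [@toMeasure_apply D (subSigma P D) _ (sub_le_caratheodory P D) _ ⟨A, hA, rfl⟩,
    OuterMeasure.comap_apply]
  change P (Subtype.val '' (Subtype.val ⁻¹' A : Set D)) = P A
  rw [Subtype.image_preimage_coe]
  apply le_antisymm (measure_mono Set.inter_subset_right)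
  have h1 : P D = P (D ∩ A) + P (D \ A) := (measure_inter_add_sdiff₀ _ hA).symm
  have h2 : P (D \ A) ≤ P Aᶜ := measure_mono (fun x hx => hx.2)
  have h3 : P A + P Aᶜ = 1 := by
    have := measure_inter_add_sdiff₀ (μ := P) Set.univ hA
    rw [measure_univ, Set.univ_inter, ← Set.compl_eq_univ_sdiff] at this
    exact this
  have h4 : (1 : ℝ≥0∞) ≤ P (D ∩ A) + P Aᶜ := by
    rw [← show P D = 1 from hD, h1]
    exact add_le_add_right h2 _
  rw [← h3] at h4
  exact (ENNReal.add_le_add_iff_right (measure_ne_top _ _)).1 h4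

theorem subMeas_prob (hD : Thick P D) : @IsProbabilityMeasure D (subSigma P D) (subMeas P D) := by
  refine @IsProbabilityMeasure.mk D (subSigma P D) _ ?_
  have := subMeas_apply hD (MeasurableSet.univ.nullMeasurableSet (μ := P))
  rw [Set.preimage_univ] at this
  exact this.trans measure_univ

omit [IsProbabilityMeasure P] in
theorem subMeas_complete : @IsComplete D (subSigma P D) (subMeas P D) := by
  refine @IsComplete.mk D (subSigma P D) _ ?_
  intro S hS
  have h1 : (OuterMeasure.comap Subtype.val P.toOuterMeasure : OuterMeasure D) S = 0 := by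
    have := @le_toMeasure_apply D (subSigma P D)
      (OuterMeasure.comap Subtype.val P.toOuterMeasure : OuterMeasure D) (sub_le_caratheodory P D) S
    exact le_antisymm (this.trans (le_of_eq hS)) (by simp)
  rw [OuterMeasure.comap_apply] at h1
  have h2 : P (Subtype.val '' S : Set Z) = 0 := h1
  exact ⟨Subtype.val '' S, NullMeasurableSet.of_null h2,
    (Set.preimage_image_eq _ Subtype.val_injective).symm⟩

theorem sub_mp (hD : Thick P D) :
    @MeasurePreserving D Z (subSigma P D) mZ Subtype.val (subMeas P D) P := by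
  let _ := subSigma P D
  have hm : Measurable (Subtype.val : D → Z) := fun A hA => ⟨A, hA.nullMeasurableSet, rfl⟩
  refine ⟨hm, ?_⟩
  ext A hA
  rw [map_apply hm hA]
  exact subMeas_apply hD hA.nullMeasurableSet

end Sub

section SubPi
variable {ι : Type*} {W : Type*} [TopologicalSpace W] [SecondCountableTopology W]
  [PseudoMetrizableSpace W]
  [mW : MeasurableSpace W] [BorelSpace W] {m : Measure W} [IsProbabilityMeasure m]
  [IsOpenPosMeasure m] {D : Set (ι → W)}

omit [PseudoMetrizableSpace W] in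
theorem sub_opens : @OpensMeasurableSpace D _ (subSigma (infinitePi (fun _ : ι => m)) D) := by
  let _ := subSigma (infinitePi (fun _ : ι => m)) D
  constructor
  rw [borel]
  apply MeasurableSpace.generateFrom_le
  rintro U hU
  obtain ⟨O, hO, rfl⟩ := isOpen_induced_iff.1 hU
  exact ⟨O, open_nullMeasurable m hO, rfl⟩

omit [IsOpenPosMeasure m] in
theorem sub_inner (hD : Thick (infinitePi (fun _ : ι => m)) D) :
    (subMeas (infinitePi (fun _ : ι => m)) D).InnerRegularWRT IsClosed
      (@MeasurableSet D (subSigma (infinitePi (fun _ : ι => m)) D)) := by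
  rintro S ⟨A, hA, rfl⟩ r hr
  rw [subMeas_apply hD hA] at hr
  obtain ⟨A₁, hA₁A, hA₁m, hA₁⟩ := hA.exists_measurable_subset_ae_eq
  rw [← measure_congr hA₁] at hr
  obtain ⟨K, hKA, hKc, hKm, hK⟩ := inner_closed m hA₁m hr
  refine ⟨Subtype.val ⁻¹' K, Set.preimage_mono (hKA.trans hA₁A),
    hKc.preimage continuous_subtype_val, ?_⟩
  rw [subMeas_apply hD hKm.nullMeasurableSet]
  exact hK

omit [PseudoMetrizableSpace W] in
theorem sub_tau (hD : Thick (infinitePi (fun _ : ι => m)) D) (𝒰 : Set (Set D))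
    (h𝒰 : ∀ U ∈ 𝒰, IsOpen U) (hdir : DirectedOn (· ⊆ ·) 𝒰) :
    subMeas (infinitePi (fun _ : ι => m)) D (⋃₀ 𝒰) =
      ⨆ U ∈ 𝒰, subMeas (infinitePi (fun _ : ι => m)) D U := by
  classical
  set P := infinitePi (fun _ : ι => m) with hP
  apply le_antisymm _ (iSup₂_le (fun U hU => measure_mono (Set.subset_sUnion_of_mem hU)))
  rcases 𝒰.eq_empty_or_nonempty with hemp | hne
  · rw [hemp]; simp
  set 𝒱 : Set (Set (ι → W)) := {V | V ∈ BC ι W ∧ ∃ U ∈ 𝒰, Subtype.val ⁻¹' V ⊆ U} with h𝒱
  obtain ⟨𝒱₀, hsub, hc, hnull⟩ := lindelof (ι := ι) m 𝒱 (fun V hV => hV.1)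
  have hcover : ⋃₀ 𝒰 ⊆ Subtype.val ⁻¹' (⋃₀ 𝒱) := by
    rintro x ⟨U, hU, hxU⟩
    obtain ⟨O, hO, rfl⟩ := isOpen_induced_iff.1 (h𝒰 U hU)
    obtain ⟨V, hV, hxV, hVO⟩ := BC_basis.exists_subset_of_mem_open (show (x : ι → W) ∈ O from hxU) hO
    exact ⟨V, ⟨hV, _, hU, Set.preimage_mono hVO⟩, hxV⟩
  have hm : MeasurableSet (⋃₀ 𝒱₀) :=
    MeasurableSet.sUnion hc (fun V hV => BC_measurable (hsub hV).1)
  have h1 : subMeas P D (⋃₀ 𝒰) ≤ P (⋃₀ 𝒱₀) := by
    calc subMeas P D (⋃₀ 𝒰) ≤ subMeas P D (Subtype.val ⁻¹' (⋃₀ 𝒱₀) ∪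
            Subtype.val ⁻¹' (⋃₀ 𝒱 \ ⋃₀ 𝒱₀)) := by
          apply measure_mono
          intro x hx
          by_cases hx0 : (x : ι → W) ∈ ⋃₀ 𝒱₀
          · exact Or.inl hx0
          · exact Or.inr ⟨hcover hx, hx0⟩
      _ ≤ subMeas P D (Subtype.val ⁻¹' (⋃₀ 𝒱₀)) + subMeas P D (Subtype.val ⁻¹' (⋃₀ 𝒱 \ ⋃₀ 𝒱₀)) :=
          measure_union_le _ _
      _ = P (⋃₀ 𝒱₀) := by
          rw [subMeas_apply hD hm.nullMeasurableSet,
            subMeas_apply hD (NullMeasurableSet.of_null hnull), hnull, add_zero]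
  refine h1.trans ?_
  -- the measure of a countable union is the sup of finite unions
  have hfin : ∀ 𝒞 : Finset (Set (ι → W)), (𝒞 : Set (Set (ι → W))) ⊆ 𝒱₀ →
      ∃ U ∈ 𝒰, Subtype.val ⁻¹' (⋃₀ (𝒞 : Set (Set (ι → W)))) ⊆ U := by
    intro 𝒞
    induction 𝒞 using Finset.induction_on with
    | empty =>
      intro _
      obtain ⟨U, hU⟩ := hne
      exact ⟨U, hU, by simp⟩
    | insert V 𝒞 _ ih =>
      intro h𝒞
      rw [Finset.coe_insert] at h𝒞
      obtain ⟨U₁, hU₁, h1⟩ := ih ((Set.subset_insert _ _).trans h𝒞)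
      obtain ⟨_, U₂, hU₂, h2⟩ := hsub (h𝒞 (Set.mem_insert _ _))
      obtain ⟨U₃, hU₃, h13, h23⟩ := hdir U₁ hU₁ U₂ hU₂
      refine ⟨U₃, hU₃, ?_⟩
      rw [Finset.coe_insert, Set.sUnion_insert, Set.preimage_union]
      exact Set.union_subset (h2.trans h23) (h1.trans h13)
  rcases 𝒱₀.eq_empty_or_nonempty with h0 | h0
  · rw [h0]; simp
  obtain ⟨e, he⟩ := hc.exists_eq_range h0
  rw [he, Set.sUnion_range, measure_iUnion_eq_iSup_accumulate]
  refine iSup_le (fun n => ?_)
  have hacc : accumulate e n = ⋃₀ (((Finset.range (n + 1)).image e : Finset (Set (ι → W))) :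
      Set (Set (ι → W))) := by
    ext x
    simp only [mem_accumulate, Finset.coe_image, Set.sUnion_image, Set.mem_iUnion,
      Finset.mem_coe, Finset.mem_range, exists_prop]
    constructor
    · rintro ⟨k, hk, hx⟩; exact ⟨k, by omega, hx⟩
    · rintro ⟨k, hk, hx⟩; exact ⟨k, by omega, hx⟩
  obtain ⟨U, hU, hUs⟩ := hfin ((Finset.range (n + 1)).image e) (by
    intro V hV
    rw [Finset.coe_image] at hV
    obtain ⟨k, _, rfl⟩ := hV
    rw [he]
    exact Set.mem_range_self k)
  have hmacc : MeasurableSet (accumulate e n) := by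
    rw [hacc]
    refine MeasurableSet.sUnion (Finset.countable_toSet _) (fun V hV => ?_)
    rw [Finset.coe_image] at hV
    obtain ⟨k, _, rfl⟩ := hV
    have : e k ∈ 𝒱₀ := by rw [he]; exact Set.mem_range_self k
    exact BC_measurable (hsub this).1
  rw [← subMeas_apply hD hmacc.nullMeasurableSet]
  rw [← hacc] at hUs
  exact (measure_mono hUs).trans (le_iSup₂_of_le U hU le_rfl)

end SubPi

end Pool.Agent.Helper80.QR
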