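import Pool.Agent.Helper80.QR.FactD

open MeasureTheory Measure Set Function Filter Topology ProbabilityTheory
open scoped ENNReal BoundedContinuousFunction

namespace Pool.Agent.Helper80.QR

/-- `ℓ^∞` -/
abbrev L : Type := ℕ →ᵇ ℝ

open Classical in
/-- indicator function of a set, as an element of `ℓ^∞` -/
noncomputable def chi (a : Set ℕ) : L :=
  BoundedContinuousFunction.ofNormedAddCommGroupDiscrete (fun n => if n ∈ a then (1 : ℝ) else 0) 1
    (fun n => by split_ifs <;> simp)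

theorem chi_apply_mem {a : Set ℕ} {n : ℕ} (h : n ∈ a) : chi a n = 1 := by
  simp [chi, h]

theorem chi_apply_notMem {a : Set ℕ} {n : ℕ} (h : n ∉ a) : chi a n = 0 := by
  simp [chi, h]

theorem norm_chi_le (a : Set ℕ) : ‖chi a‖ ≤ 1 := by
  rw [BoundedContinuousFunction.norm_le (by norm_num : (0 : ℝ) ≤ 1)]
  intro n
  by_cases h : n ∈ a
  · rw [chi_apply_mem h]; simp
  · rw [chi_apply_notMem h]; simp

theorem chi_empty : chi ∅ = 0 := by
  ext n; simp [chi]

theorem chi_union {a b : Set ℕ} (h : Disjoint a b) : chi (a ∪ b) = chi a + chi b := by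
  ext n
  rw [BoundedContinuousFunction.add_apply]
  by_cases ha : n ∈ a
  · have hb : n ∉ b := fun hb => Set.disjoint_left.1 h ha hb
    rw [chi_apply_mem (Or.inl ha), chi_apply_mem ha, chi_apply_notMem hb, add_zero]
  · by_cases hb : n ∈ b
    · rw [chi_apply_mem (Or.inr hb), chi_apply_mem hb, chi_apply_notMem ha, zero_add]
    · rw [chi_apply_notMem ha, chi_apply_notMem hb, chi_apply_notMem (by simp [ha, hb]), add_zero]

/-- functionals killing all unit vectors -/
abbrev Theta : Type := {θ : L →L[ℝ] ℝ // ∀ n, θ (chi {n}) = 0}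

theorem Theta.fin (θ : Theta) {a : Set ℕ} (ha : a.Finite) : θ.1 (chi a) = 0 := by
  induction a, ha using Set.Finite.induction_on with
  | empty => rw [chi_empty, map_zero]
  | @insert x s hx hs ih =>
    rw [← Set.singleton_union, chi_union (Set.disjoint_singleton_left.2 hx), map_add, θ.2, ih,
      add_zero]

theorem Theta.bdd (θ : Theta) (a : Set ℕ) : BddAbove {c | ∃ b ⊆ a, θ.1 (chi b) = c} := by
  refine ⟨‖θ.1‖, ?_⟩
  rintro c ⟨b, _, rfl⟩
  calc θ.1 (chi b) ≤ ‖θ.1 (chi b)‖ := le_abs_self _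
    _ ≤ ‖θ.1‖ * ‖chi b‖ := θ.1.le_opNorm _
    _ ≤ ‖θ.1‖ * 1 := mul_le_mul_of_nonneg_left (norm_chi_le b) (by positivity)
    _ = ‖θ.1‖ := mul_one _

theorem Theta.nonempty (θ : Theta) (a : Set ℕ) : {c | ∃ b ⊆ a, θ.1 (chi b) = c}.Nonempty :=
  ⟨0, ∅, Set.empty_subset _, by rw [chi_empty, map_zero]⟩

/-- positive part -/
noncomputable def Theta.pos (θ : Theta) : FAM where
  m a := sSup {c | ∃ b ⊆ a, θ.1 (chi b) = c}
  nonneg a := le_csSup (θ.bdd a) ⟨∅, Set.empty_subset _, by rw [chi_empty, map_zero]⟩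
  add a b hab := by
    apply le_antisymm
    · apply csSup_le (θ.nonempty _)
      rintro c ⟨s, hs, rfl⟩
      have : s = (s ∩ a) ∪ (s ∩ b) := by
        rw [← Set.inter_union_distrib_left]; exact (Set.inter_eq_left.2 hs).symm
      rw [this, chi_union (hab.mono Set.inter_subset_right Set.inter_subset_right), map_add]
      exact add_le_add (le_csSup (θ.bdd a) ⟨_, Set.inter_subset_right, rfl⟩)
        (le_csSup (θ.bdd b) ⟨_, Set.inter_subset_right, rfl⟩)
    · rw [← le_sub_iff_add_le]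
      apply csSup_le (θ.nonempty _)
      rintro c ⟨s, hs, rfl⟩
      rw [le_sub_iff_add_le, add_comm, ← le_sub_iff_add_le]
      apply csSup_le (θ.nonempty _)
      rintro c ⟨s', hs', rfl⟩
      rw [le_sub_iff_add_le, add_comm, ← map_add, ← chi_union (hab.mono hs hs')]
      exact le_csSup (θ.bdd _) ⟨_, Set.union_subset_union hs hs', rfl⟩
  fin a ha := by
    apply le_antisymm
    · apply csSup_le (θ.nonempty _)
      rintro c ⟨s, hs, rfl⟩
      rw [θ.fin (ha.subset hs)]
    · exact le_csSup (θ.bdd a) ⟨∅, Set.empty_subset _, by rw [chi_empty, map_zero]⟩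

/-- negative part -/
noncomputable def Theta.neg (θ : Theta) : FAM where
  m a := θ.pos.m a - θ.1 (chi a)
  nonneg a := sub_nonneg.2 (le_csSup (θ.bdd a) ⟨a, le_rfl, rfl⟩)
  add a b hab := by
    rw [θ.pos.add a b hab, chi_union hab, map_add]; ring
  fin a ha := by
    rw [θ.pos.fin a ha, θ.fin ha, sub_zero]

theorem Theta.eq (θ : Theta) (a : Set ℕ) : θ.1 (chi a) = θ.pos.m a - θ.neg.m a := by
  simp [Theta.neg]

abbrev Wt : Type := (ℕ → ℕ → Bool) × (ℕ → Bool)

/-- the values of the Pettis function -/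
noncomputable def g (p : Wt) : L := chi (St p.2 ∩ dd p.1) - chi (dd p.1 \ St p.2)

theorem Theta.zero_of_balanced (θ : Theta) (p : Wt)
    (h1 : θ.pos.m (St p.2 ∩ dd p.1) = θ.pos.m (dd p.1) / 2)
    (h2 : θ.neg.m (St p.2 ∩ dd p.1) = θ.neg.m (dd p.1) / 2) : θ.1 (g p) = 0 := by
  have e1 := θ.pos.split (dd p.1) (St p.2)
  have e2 := θ.neg.split (dd p.1) (St p.2)
  rw [Set.inter_comm] at e1 e2
  rw [g, map_sub, θ.eq, θ.eq]
  linarith

theorem thick_zero {C : Set Theta} (hC : C.Countable) :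
    Thick muW {p | ∀ θ ∈ C, θ.1 (g p) = 0} := by
  let _ : Encodable C := hC.toEncodable
  have h := thick_all (ι := C × Bool) (fun i => if i.2 = true then i.1.1.pos else i.1.1.neg)
  refine h.mono (fun p hp θ hθ => ?_)
  simp only [mem_ofPred_eq] at hp
  apply θ.zero_of_balanced p
  · simpa using hp (⟨θ, hθ⟩, true)
  · simpa using hp (⟨θ, hθ⟩, false)

end Pool.Agent.Helper80.QR
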