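import Mathlib

open MeasureTheory Measure Set Function
open scoped ENNReal

namespace Pool.Agent.Helper80.QR

/-! ### Product measure helpers -/

section Prod
variable {ι : Type*} {X : ι → Type*} [mX : ∀ i, MeasurableSpace (X i)]
  (μ : (i : ι) → Measure (X i)) [hμ : ∀ i, IsProbabilityMeasure (μ i)]

theorem measurable_upd [DecidableEq ι] (i : ι) :
    Measurable (fun p : X i × (Π j, X j) => Function.update p.2 i p.1) := by
  rw [measurable_pi_iff]
  intro j
  by_cases h : j = i
  · subst h
    simpa using measurable_fst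
  · simp only [Function.update_of_ne h]
    exact (measurable_pi_apply j).comp measurable_snd

/-- Resampling one coordinate preserves the product measure. -/
theorem map_update [DecidableEq ι] (i : ι) :
    ((μ i).prod (infinitePi μ)).map (fun p : X i × (Π j, X j) => Function.update p.2 i p.1)
      = infinitePi μ := by
  apply eq_infinitePi
  intro s t ht
  rw [map_apply (measurable_upd i) (MeasurableSet.pi s.countable_toSet fun j _ => ht j)]
  by_cases hi : i ∈ s
  · have : (fun p : X i × (Π j, X j) => Function.update p.2 i p.1) ⁻¹' (Set.pi s t)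
        = (t i) ×ˢ (Set.pi (s.erase i) t) := by
      ext ⟨z, x⟩
      simp only [Set.mem_preimage, Set.mem_pi, Set.mem_prod, Finset.coe_erase, Set.mem_sdiff,
        Set.mem_singleton_iff, Finset.mem_coe]
      constructor
      · intro h
        refine ⟨by simpa using h i hi, fun j hj => ?_⟩
        have := h j hj.1
        rwa [Function.update_of_ne hj.2] at this
      · rintro ⟨h1, h2⟩ j hj
        by_cases hji : j = i
        · subst hji; simpa using h1
        · rw [Function.update_of_ne hji]; exact h2 j ⟨hj, hji⟩
    rw [this, prod_prod, infinitePi_pi _ (fun j _ => ht j)]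
    exact Finset.mul_prod_erase s (fun j => μ j (t j)) hi
  · have : (fun p : X i × (Π j, X j) => Function.update p.2 i p.1) ⁻¹' (Set.pi s t)
        = Set.univ ×ˢ (Set.pi s t) := by
      ext ⟨z, x⟩
      simp only [Set.mem_preimage, Set.mem_pi, Set.mem_prod, Set.mem_univ, true_and,
        Finset.mem_coe]
      have : ∀ j ∈ s, Function.update x i z j = x j := fun j hj => by
        rw [Function.update_of_ne]; rintro rfl; exact hi hj
      constructor
      · intro h j hj; rw [← this j hj]; exact h j hj
      · intro h j hj; rw [this j hj]; exact h j hj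
    rw [this, prod_prod, infinitePi_pi _ (fun j _ => ht j), measure_univ, one_mul]

open Classical in
/-- Merging two independent points along a set of coordinates. -/
noncomputable def mrg (J : Set ι) (p : (Π j, X j) × (Π j, X j)) : Π j, X j :=
  fun j => if j ∈ J then p.1 j else p.2 j

theorem measurable_mrg (J : Set ι) : Measurable (mrg (X := X) J) := by
  classical
  rw [measurable_pi_iff]
  intro j
  unfold mrg
  by_cases h : j ∈ J
  · simp only [h, if_true]
    exact (measurable_pi_apply j).comp measurable_fst
  · simp only [h, if_false]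
    exact (measurable_pi_apply j).comp measurable_snd

theorem map_mrg (J : Set ι) :
    ((infinitePi μ).prod (infinitePi μ)).map (mrg J) = infinitePi μ := by
  classical
  apply eq_infinitePi
  intro s t ht
  rw [map_apply (measurable_mrg J) (MeasurableSet.pi s.countable_toSet fun j _ => ht j)]
  have : (mrg J) ⁻¹' (Set.pi s t)
      = (Set.pi (s.filter (fun j => j ∈ J)) t) ×ˢ (Set.pi (s.filter (fun j => ¬ j ∈ J)) t) := by
    ext ⟨x, y⟩
    simp only [Set.mem_preimage, Set.mem_pi, Set.mem_prod, Finset.coe_filter, mem_ofPred_eq,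
      Finset.mem_coe, mrg]
    constructor
    · intro h
      refine ⟨fun j hj => ?_, fun j hj => ?_⟩
      · have := h j hj.1; rwa [if_pos hj.2] at this
      · have := h j hj.1; rwa [if_neg hj.2] at this
    · rintro ⟨h1, h2⟩ j hj
      by_cases hJ : j ∈ J
      · rw [if_pos hJ]; exact h1 j ⟨hj, hJ⟩
      · rw [if_neg hJ]; exact h2 j ⟨hj, hJ⟩
  rw [this, prod_prod, infinitePi_pi _ (fun j _ => ht j), infinitePi_pi _ (fun j _ => ht j),
    Finset.prod_filter_mul_prod_filter_not]

/-- Independence of events depending on complementary sets of coordinates. -/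
theorem measure_inter_of_dep (J : Set ι) {A B : Set (Π j, X j)} (hA : MeasurableSet A)
    (hB : MeasurableSet B)
    (hAJ : ∀ x y : Π j, X j, (∀ j ∈ J, x j = y j) → x ∈ A → y ∈ A)
    (hBJ : ∀ x y : Π j, X j, (∀ j, j ∉ J → x j = y j) → x ∈ B → y ∈ B) :
    infinitePi μ (A ∩ B) = infinitePi μ A * infinitePi μ B := by
  classical
  conv_lhs => rw [← map_mrg μ J]
  rw [map_apply (measurable_mrg J) (hA.inter hB)]
  have : (mrg J) ⁻¹' (A ∩ B) = A ×ˢ B := by
    ext ⟨x, y⟩
    simp only [Set.mem_preimage, Set.mem_inter_iff, Set.mem_prod]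
    have e1 : ∀ j ∈ J, mrg J (x, y) j = x j := fun j hj => by simp [mrg, hj]
    have e2 : ∀ j, j ∉ J → mrg J (x, y) j = y j := fun j hj => by simp [mrg, hj]
    constructor
    · rintro ⟨h1, h2⟩
      exact ⟨hAJ _ _ e1 h1, hBJ _ _ e2 h2⟩
    · rintro ⟨h1, h2⟩
      exact ⟨hAJ _ _ (fun j hj => (e1 j hj).symm) h1, hBJ _ _ (fun j hj => (e2 j hj).symm) h2⟩
  rw [this, prod_prod]

end Prod

/-! ### Thick sets (outer measure one) -/

/-- `T` has full outer measure. -/
def Thick {A : Type*} [MeasurableSpace A] (μ : Measure A) (T : Set A) : Prop := μ T = 1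

section Thick
variable {A B : Type*} [MeasurableSpace A] [MeasurableSpace B]

theorem thick_iff (μ : Measure A) [IsProbabilityMeasure μ] (T : Set A) :
    Thick μ T ↔ ∀ B, MeasurableSet B → μ B ≠ 0 → (T ∩ B).Nonempty := by
  constructor
  · intro h B hB hB0
    by_contra hne
    rw [Set.not_nonempty_iff_eq_empty] at hne
    have hsub : T ⊆ Bᶜ := fun x hx hxB => by
      have : x ∈ T ∩ B := ⟨hx, hxB⟩
      rw [hne] at this
      exact this
    have h1 : (1 : ℝ≥0∞) ≤ μ Bᶜ := h ▸ measure_mono hsub
    have h2 : μ B + μ Bᶜ = 1 := by rw [measure_add_measure_compl hB, measure_univ]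
    have h3 : μ Bᶜ ≤ 1 := prob_le_one
    have h4 : μ Bᶜ = 1 := le_antisymm h3 h1
    rw [h4] at h2
    have : μ B = 0 := by
      have h5 : μ B + 1 = 0 + 1 := by rw [h2, zero_add]
      exact (ENNReal.add_left_inj ENNReal.one_ne_top).1 h5
    exact hB0 this
  · intro h
    unfold Thick
    rw [← measure_toMeasurable]
    have hm := measurableSet_toMeasurable μ T
    by_contra hne
    have h1 : μ (toMeasurable μ T)ᶜ ≠ 0 := by
      intro h0
      apply hne
      have := measure_add_measure_compl (μ := μ) hm
      rw [h0, add_zero, measure_univ] at this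
      exact this
    obtain ⟨x, hx1, hx2⟩ := h _ hm.compl h1
    exact hx2 (subset_toMeasurable μ T hx1)

theorem Thick.mono {μ : Measure A} [IsProbabilityMeasure μ] {S T : Set A} (h : Thick μ S)
    (hST : S ⊆ T) : Thick μ T :=
  le_antisymm prob_le_one (h ▸ measure_mono hST)

theorem Thick.inter_conull {μ : Measure A} [IsProbabilityMeasure μ] {S T : Set A}
    (h : Thick μ S) (hT : μ Tᶜ = 0) : Thick μ (S ∩ T) := by
  unfold Thick at *
  apply le_antisymm prob_le_one
  rw [← h]
  calc μ S ≤ μ ((S ∩ T) ∪ Tᶜ) := measure_mono (fun x hx => by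
        by_cases hxT : x ∈ T
        · exact Or.inl ⟨hx, hxT⟩
        · exact Or.inr hxT)
    _ ≤ μ (S ∩ T) + μ Tᶜ := measure_union_le _ _
    _ = μ (S ∩ T) := by rw [hT, add_zero]

theorem thick_of_conull {μ : Measure A} [IsProbabilityMeasure μ] {T : Set A}
    (hT : μ Tᶜ = 0) : Thick μ T := by
  have : Thick μ (Set.univ : Set A) := measure_univ
  exact (this.inter_conull hT).mono Set.inter_subset_right

theorem Thick.nonempty {μ : Measure A} {S : Set A} (h : Thick μ S) : S.Nonempty := by
  by_contra hne
  rw [Set.not_nonempty_iff_eq_empty] at hne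
  unfold Thick at h
  rw [hne, measure_empty] at h
  exact zero_ne_one h

/-- image of a thick set under a measure preserving map. -/
theorem Thick.image {μ : Measure A} [IsProbabilityMeasure μ] {ν : Measure B}
    [IsProbabilityMeasure ν] {φ : A → B}
    (hφ : MeasurePreserving φ μ ν) {S : Set A} {T : Set B} (h : Thick μ S)
    (hST : ∀ x ∈ S, φ x ∈ T) : Thick ν T := by
  rw [thick_iff] at h ⊢
  intro C hC hC0
  have : μ (φ ⁻¹' C) ≠ 0 := by rwa [hφ.measure_preimage hC.nullMeasurableSet]
  obtain ⟨x, hxS, hxC⟩ := h _ (hφ.measurable hC) this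
  exact ⟨φ x, hST x hxS, hxC⟩

/-- two-step selection. -/
theorem Thick.prod {μ : Measure A} [IsProbabilityMeasure μ] {ν : Measure B}
    [IsProbabilityMeasure ν] {S : Set A} (h : Thick μ S) {T : A → Set B}
    (hT : ∀ a ∈ S, Thick ν (T a)) :
    Thick (μ.prod ν) {p : A × B | p.1 ∈ S ∧ p.2 ∈ T p.1} := by
  rw [thick_iff]
  intro C hC hC0
  have hm : Measurable (fun a => ν (Prod.mk a ⁻¹' C)) := measurable_measure_prodMk_left hC
  have hpos : μ {a | ν (Prod.mk a ⁻¹' C) ≠ 0} ≠ 0 := by
    intro h0
    apply hC0
    rw [measure_prod_null hC]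
    exact h0
  have hms : MeasurableSet {a | ν (Prod.mk a ⁻¹' C) ≠ 0} :=
    (hm (measurableSet_singleton 0)).compl
  obtain ⟨a, haS, ha⟩ := (thick_iff μ S).1 h _ hms hpos
  obtain ⟨b, hbT, hb⟩ := (thick_iff ν (T a)).1 (hT a haS) _ (measurable_prodMk_left hC) ha
  exact ⟨(a, b), ⟨haS, hbT⟩, hb⟩

end Thick

/-! ### Zero-one law for arbitrary tail sets -/

section ZeroOne
variable {ι : Type*} [DecidableEq ι] {X : ι → Type*} [mX : ∀ i, MeasurableSpace (X i)]
  (μ : (i : ι) → Measure (X i)) [hμ : ∀ i, IsProbabilityMeasure (μ i)]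

theorem thick_of_tail {T : Set (Π i, X i)} (hT : ∀ x ∈ T, ∀ i z, Function.update x i z ∈ T)
    (h0 : infinitePi μ T ≠ 0) : Thick (infinitePi μ) T := by
  set P := infinitePi μ with hP
  set H := toMeasurable P T with hH
  have hHm : MeasurableSet H := measurableSet_toMeasurable P T
  have hHT : P H = P T := measure_toMeasurable T
  have hTH : T ⊆ H := subset_toMeasurable P T
  -- key: for a.e. x in H, a.e. update stays in H
  have key1 : ∀ i, ((μ i).prod P) {p : X i × (Π j, X j) | p.2 ∈ H ∧ Function.update p.2 i p.1 ∉ H} = 0 := by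
    intro i
    have hNm : MeasurableSet {p : X i × (Π j, X j) | p.2 ∈ H ∧ Function.update p.2 i p.1 ∉ H} :=
      (measurable_snd hHm).inter ((measurable_upd i) hHm).compl
    rw [Measure.prod_apply_symm hNm, lintegral_eq_zero_iff (measurable_measure_prodMk_right hNm)]
    -- the set of bad x
    set H' : Set (Π j, X j) := {x ∈ H | μ i {z | Function.update x i z ∉ H} = 0} with hH'
    have hmeas : Measurable (fun x : Π j, X j => μ i {z | Function.update x i z ∉ H}) := by
      have : MeasurableSet {p : X i × (Π j, X j) | Function.update p.2 i p.1 ∉ H} :=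
        ((measurable_upd i) hHm).compl
      exact measurable_measure_prodMk_right this
    have hH'm : MeasurableSet H' := hHm.inter (hmeas (measurableSet_singleton 0))
    have hTH' : T ⊆ H' := by
      intro x hx
      refine ⟨hTH hx, ?_⟩
      have : {z | Function.update x i z ∉ H} = ∅ := by
        ext z
        simp only [mem_ofPred_eq, Set.mem_empty_iff_false, iff_false, not_not]
        exact hTH (hT x hx i z)
      rw [this, measure_empty]
    have hH'H : P (H \ H') = 0 := by
      have h1 : P H ≤ P H' := by rw [hHT]; exact measure_mono hTH'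
      have hsub : H' ⊆ H := fun x hx => hx.1
      rw [measure_sdiff hsub hH'm.nullMeasurableSet (measure_ne_top _ _)]
      exact tsub_eq_zero_of_le h1
    rw [Filter.EventuallyEq, ae_iff]
    refine measure_mono_null ?_ hH'H
    intro x hx
    simp only [Pi.zero_apply, mem_ofPred_eq] at hx
    by_cases hxH : x ∈ H
    · refine ⟨hxH, fun hx' => hx ?_⟩
      refine measure_mono_null ?_ hx'.2
      intro z hz
      exact hz.2
    · exfalso
      apply hx
      have : (fun z => (z, x)) ⁻¹' {p : X i × (Π j, X j) | p.2 ∈ H ∧ Function.update p.2 i p.1 ∉ H}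
          = ∅ := by
        ext z
        simp [hxH]
      rw [this, measure_empty]
  -- inequality
  have key2 : ∀ i (C : Set (X i)) (A' : Set (Π j, X j)), MeasurableSet C → MeasurableSet A' →
      (∀ x z, x ∈ A' → Function.update x i z ∈ A') →
      μ i C * P (H ∩ A') ≤ P (H ∩ A' ∩ {x | x i ∈ C}) := by
    intro i C A' hC hA' hdep
    have hev : MeasurableSet {x : Π j, X j | x i ∈ C} := (measurable_pi_apply i) hC
    have hQm : MeasurableSet (H ∩ A' ∩ {x | x i ∈ C}) := (hHm.inter hA').inter hev
    have e1 : P (H ∩ A' ∩ {x | x i ∈ C}) = ((μ i).prod P)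
        ((fun p : X i × (Π j, X j) => Function.update p.2 i p.1) ⁻¹' (H ∩ A' ∩ {x | x i ∈ C})) := by
      rw [← map_apply (measurable_upd i) hQm, map_update μ i]
    rw [e1, ← prod_prod]
    calc ((μ i).prod P) (C ×ˢ (H ∩ A'))
        ≤ ((μ i).prod P) (((fun p : X i × (Π j, X j) => Function.update p.2 i p.1) ⁻¹'
          (H ∩ A' ∩ {x | x i ∈ C})) ∪
          {p : X i × (Π j, X j) | p.2 ∈ H ∧ Function.update p.2 i p.1 ∉ H}) := by
          apply measure_mono
          rintro ⟨z, x⟩ ⟨hz, hxH, hxA⟩
          by_cases hu : Function.update x i z ∈ H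
          · left
            refine ⟨⟨hu, hdep x z hxA⟩, ?_⟩
            simpa using hz
          · right
            exact ⟨hxH, hu⟩
      _ ≤ _ := by
          refine (measure_union_le _ _).trans ?_
          rw [key1 i, add_zero]
  have key3 : ∀ (s : Finset ι) (t : (i : ι) → Set (X i)), (∀ i, MeasurableSet (t i)) →
      P (H ∩ Set.pi s t) = P H * ∏ i ∈ s, μ i (t i) := by
    intro s t ht
    induction s using Finset.induction_on with
    | empty => simp
    | insert i s his ih =>
      have hA' : MeasurableSet (Set.pi (s : Set ι) t) :=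
        MeasurableSet.pi s.countable_toSet fun j _ => ht j
      have hdep : ∀ x z, x ∈ Set.pi (s : Set ι) t → Function.update x i z ∈ Set.pi (s : Set ι) t := by
        intro x z hx j hj
        rw [Function.update_of_ne]
        · exact hx j hj
        · rintro rfl; exact his hj
      have g1 := key2 i (t i) _ (ht i) hA' hdep
      have g2 := key2 i (t i)ᶜ _ (ht i).compl hA' hdep
      have hsplit : P (H ∩ Set.pi (s : Set ι) t ∩ {x | x i ∈ t i})
          + P (H ∩ Set.pi (s : Set ι) t ∩ {x | x i ∈ (t i)ᶜ}) = P (H ∩ Set.pi (s : Set ι) t) := by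
        have hev : MeasurableSet {x : Π j, X j | x i ∈ t i} := (measurable_pi_apply i) (ht i)
        have := measure_inter_add_sdiff (μ := P) (H ∩ Set.pi (s : Set ι) t) hev
        exact this
      have hsum : μ i (t i) * P (H ∩ Set.pi (s : Set ι) t)
          + μ i (t i)ᶜ * P (H ∩ Set.pi (s : Set ι) t) = P (H ∩ Set.pi (s : Set ι) t) := by
        rw [← add_mul, measure_add_measure_compl (ht i), measure_univ, one_mul]
      have heq : P (H ∩ Set.pi (s : Set ι) t ∩ {x | x i ∈ t i})
          = μ i (t i) * P (H ∩ Set.pi (s : Set ι) t) := by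
        refine le_antisymm ?_ g1
        by_contra hlt
        push Not at hlt
        have : P (H ∩ Set.pi (s : Set ι) t) < P (H ∩ Set.pi (s : Set ι) t) := by
          conv_lhs => rw [← hsum]
          conv_rhs => rw [← hsplit]
          apply ENNReal.add_lt_add_of_lt_of_le _ hlt g2
          exact ENNReal.mul_ne_top (measure_ne_top _ _) (measure_ne_top _ _)
        exact lt_irrefl _ this
      have hset : H ∩ Set.pi ((insert i s : Finset ι) : Set ι) t
          = H ∩ Set.pi (s : Set ι) t ∩ {x | x i ∈ t i} := by
        ext x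
        simp only [Set.mem_inter_iff, Set.mem_pi, Finset.coe_insert, Set.mem_insert_iff,
          Finset.mem_coe, forall_eq_or_imp, mem_ofPred_eq]
        tauto
      rw [hset, heq, ih, Finset.prod_insert his]
      ring
  -- conclude
  have hHne : P H ≠ 0 := by rw [hHT]; exact h0
  have hcond : (P H)⁻¹ • P.restrict H = infinitePi μ := by
    apply eq_infinitePi
    intro s t ht
    have hA' : MeasurableSet (Set.pi (s : Set ι) t) :=
      MeasurableSet.pi s.countable_toSet fun j _ => ht j
    rw [Measure.smul_apply, Measure.restrict_apply hA', Set.inter_comm, key3 s t ht, smul_eq_mul,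
      ← mul_assoc, ENNReal.inv_mul_cancel hHne (measure_ne_top _ _), one_mul]
  have : P Hᶜ = 0 := by
    have h1 : ((P H)⁻¹ • P.restrict H) Hᶜ = 0 := by
      rw [Measure.smul_apply, Measure.restrict_apply hHm.compl]
      simp
    rwa [hcond] at h1
  unfold Thick
  rw [← hHT]
  have h2 := measure_add_measure_compl (μ := P) hHm
  rw [this, add_zero, measure_univ] at h2
  exact h2

end ZeroOne

/-! ### Sequential selection -/

section Seq
variable {X : ℕ → Type*} [mX : ∀ i, MeasurableSpace (X i)] [∀ i, TopologicalSpace (X i)]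
  (μ : (i : ℕ) → Measure (X i)) [hμ : ∀ i, IsProbabilityMeasure (μ i)]

/-- keep the first `k` coordinates of `h`, the rest from `x`. -/
def hd (k : ℕ) (h x : Π i, X i) : Π i, X i := fun i => if i < k then h i else x i

omit [∀ i, TopologicalSpace (X i)] in
theorem measurable_hd (k : ℕ) (h : Π i, X i) : Measurable (hd k h) := by
  rw [measurable_pi_iff]
  intro j
  unfold hd
  by_cases hj : j < k
  · simp only [hj, if_true]; exact measurable_const
  · simp only [hj, if_false]; exact measurable_pi_apply j

theorem thick_seq [OpensMeasurableSpace (Π i, X i)] [WeaklyRegular (infinitePi μ)]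
    (T : (k : ℕ) → (Π i, X i) → Set (X k))
    (hdep : ∀ k h h', (∀ i < k, h i = h' i) → T k h = T k h')
    (hthick : ∀ k h, Thick (μ k) (T k h)) :
    Thick (infinitePi μ) {h | ∀ k, h k ∈ T k h} := by
  classical
  set P := infinitePi μ with hP
  rw [thick_iff]
  intro B hB hB0
  obtain ⟨K, hKB, hKc, hK0⟩ := hB.exists_lt_isClosed_of_ne_top (measure_ne_top P B)
    (pos_iff_ne_zero.2 hB0)
  have hKm : MeasurableSet K := hKc.measurableSet
  have hK0' : P K ≠ 0 := hK0.ne'
  -- the invariant
  let Q : ℕ → (Π i, X i) → Prop := fun k H =>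
    P {x | hd k H x ∈ K} ≠ 0 ∧ ∀ i < k, H i ∈ T i H
  have step : ∀ k H, Q k H → ∃ y, Q (k + 1) (Function.update H k y) := by
    rintro k H ⟨h1, h2⟩
    have hcongr : ∀ (x : Π i, X i) (y : X k),
        hd k H (Function.update x k y) = hd (k + 1) (Function.update H k y) x := by
      intro x y
      funext i
      unfold hd
      rcases lt_trichotomy i k with hi | hi | hi
      · rw [if_pos hi, if_pos (by omega), Function.update_of_ne (by omega)]
      · subst hi
        rw [if_neg (by omega), if_pos (by omega), Function.update_self, Function.update_self]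
      · rw [if_neg (by omega), if_neg (by omega), Function.update_of_ne (by omega)]
    have hmS : MeasurableSet {x | hd k H x ∈ K} := (measurable_hd k H) hKm
    have hmS' : MeasurableSet ((fun p : X k × (Π j, X j) => Function.update p.2 k p.1) ⁻¹'
        {x | hd k H x ∈ K}) := (measurable_upd k) hmS
    have h3 : ((μ k).prod P) ((fun p : X k × (Π j, X j) => Function.update p.2 k p.1) ⁻¹'
        {x | hd k H x ∈ K}) ≠ 0 := by
      rw [← map_apply (measurable_upd k) hmS, map_update μ k]
      exact h1
    have h4 : μ k {y | P (Prod.mk y ⁻¹' ((fun p : X k × (Π j, X j) => Function.update p.2 k p.1) ⁻¹'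
        {x | hd k H x ∈ K})) ≠ 0} ≠ 0 := by
      intro h0
      apply h3
      rw [measure_prod_null hmS']
      exact h0
    have h5 : MeasurableSet {y | P (Prod.mk y ⁻¹' ((fun p : X k × (Π j, X j) =>
        Function.update p.2 k p.1) ⁻¹' {x | hd k H x ∈ K})) ≠ 0} :=
      ((measurable_measure_prodMk_left hmS') (measurableSet_singleton 0)).compl
    obtain ⟨y, hyT, hy⟩ := (thick_iff (μ k) (T k H)).1 (hthick k H) _ h5 h4
    refine ⟨y, ?_, ?_⟩
    · have : {x | hd (k + 1) (Function.update H k y) x ∈ K} =
        Prod.mk y ⁻¹' ((fun p : X k × (Π j, X j) => Function.update p.2 k p.1) ⁻¹'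
        {x | hd k H x ∈ K}) := by
        ext x
        simp only [Set.mem_preimage, mem_ofPred_eq, hcongr]
      rw [this]
      exact hy
    · intro i hi
      have hT : T i (Function.update H k y) = T i H := hdep i _ _ (fun j hj => by
        rw [Function.update_of_ne (by omega)])
      rw [hT]
      rcases Nat.lt_succ_iff_lt_or_eq.1 hi with hi' | hi'
      · rw [Function.update_of_ne (by omega)]
        exact h2 i hi'
      · subst hi'
        rw [Function.update_self]
        exact hyT
  -- initial point
  have hne : Nonempty (Π i, X i) := by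
    by_contra hemp
    rw [not_nonempty_iff] at hemp
    apply hK0'
    rw [Set.eq_empty_of_isEmpty K, measure_empty]
  obtain ⟨H0⟩ := hne
  have init : Q 0 H0 := by
    refine ⟨?_, fun i hi => absurd hi (Nat.not_lt_zero i)⟩
    have : {x | hd 0 H0 x ∈ K} = K := by
      ext x
      have : hd 0 H0 x = x := by funext i; simp [hd]
      simp [this]
    rw [this]
    exact hK0'
  have : ∀ k, Nonempty (X k) := fun k => ⟨H0 k⟩
  choose! y hy using step
  let S : ℕ → (Π i, X i) := fun n => Nat.rec H0 (fun k H => Function.update H k (y k H)) n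
  have hS0 : S 0 = H0 := rfl
  have hSs : ∀ k, S (k + 1) = Function.update (S k) k (y k (S k)) := fun k => rfl
  have hQ : ∀ k, Q k (S k) := by
    intro k
    induction k with
    | zero => exact init
    | succ k ih => rw [hSs]; exact hy k _ ih
  let L : Π i, X i := fun i => S (i + 1) i
  have hstab : ∀ k i, i < k → S k i = L i := by
    intro k i hik
    induction k with
    | zero => exact absurd hik (Nat.not_lt_zero i)
    | succ k ih =>
      rcases Nat.lt_succ_iff_lt_or_eq.1 hik with h | h
      · rw [hSs, Function.update_of_ne (by omega)]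
        exact ih h
      · subst h; rfl
  refine ⟨L, fun k => ?_, hKB ?_⟩
  · have h1 := (hQ (k + 1)).2 k (Nat.lt_succ_self k)
    have h2 : T k (S (k + 1)) = T k L := hdep k _ _ (fun i hi => hstab (k + 1) i (by omega))
    rw [h2] at h1
    exact h1
  · -- closedness
    have hex : ∀ k, ∃ x, hd k (S k) x ∈ K := by
      intro k
      by_contra hcon
      push Not at hcon
      apply (hQ k).1
      have : {x | hd k (S k) x ∈ K} = ∅ := by
        ext x; simp [hcon x]
      rw [this, measure_empty]
    choose x hx using hex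
    apply hKc.mem_of_tendsto (b := Filter.atTop) (f := fun k => hd k (S k) (x k)) _
      (Filter.Eventually.of_forall hx)
    rw [tendsto_pi_nhds]
    intro i
    apply tendsto_const_nhds.congr'
    filter_upwards [Filter.eventually_gt_atTop i] with k hk
    simp only [hd, if_pos hk]
    exact (hstab k i hk).symm

end Seq

end Pool.Agent.Helper80.QR
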