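import Pool.Agent.Helper80.QR.Thick

open MeasureTheory Measure Set Function Filter Topology TopologicalSpace
open scoped ENNReal

namespace Pool.Agent.Helper80.QR

section OpenPos
variable {ι : Type*} {X : ι → Type*} [∀ i, TopologicalSpace (X i)] [mX : ∀ i, MeasurableSpace (X i)]
  [∀ i, OpensMeasurableSpace (X i)]
  (μ : (i : ι) → Measure (X i)) [hμ : ∀ i, IsProbabilityMeasure (μ i)]
  [∀ i, IsOpenPosMeasure (μ i)]

instance isOpenPos_infinitePi : IsOpenPosMeasure (infinitePi μ) := by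
  constructor
  rintro U hU ⟨x, hx⟩
  obtain ⟨I, u, hu, hsub⟩ := isOpen_pi_iff.1 hU x hx
  have h1 : infinitePi μ ((I : Set ι).pi u) ≠ 0 := by
    rw [infinitePi_pi _ (fun i hi => (hu i hi).1.measurableSet)]
    rw [Finset.prod_ne_zero_iff]
    intro i hi
    exact (hu i hi).1.measure_ne_zero _ ⟨_, (hu i hi).2⟩
  intro h0
  exact h1 (measure_mono_null hsub h0)

end OpenPos

section Cyl
variable {ι : Type*} {W : Type*} [TopologicalSpace W] [SecondCountableTopology W]
  [mW : MeasurableSpace W] [BorelSpace W] (m : Measure W) [IsProbabilityMeasure m]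
  [IsOpenPosMeasure m]

/-- basic cylinders -/
def BC (ι W : Type*) [TopologicalSpace W] [SecondCountableTopology W] : Set (Set (ι → W)) :=
  {S | ∃ (U : ι → Set W) (F : Finset ι), (∀ i, i ∈ F → U i ∈ countableBasis W) ∧
    S = (F : Set ι).pi U}

omit mW [BorelSpace W] in
theorem BC_basis : IsTopologicalBasis (BC ι W) :=
  isTopologicalBasis_pi (fun _ => isBasis_countableBasis W)

theorem BC_measurable {V : Set (ι → W)} (hV : V ∈ BC ι W) : MeasurableSet V := by
  obtain ⟨U, F, hU, rfl⟩ := hV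
  exact MeasurableSet.pi F.countable_toSet
    (fun i hi => (isOpen_of_mem_countableBasis (hU i hi)).measurableSet)

/-- Every family of basic cylinders has a countable subfamily with the same union up to a
null set. -/
theorem lindelof (𝒱 : Set (Set (ι → W))) (h𝒱 : 𝒱 ⊆ BC ι W) :
    ∃ 𝒱₀ ⊆ 𝒱, 𝒱₀.Countable ∧ infinitePi (fun _ : ι => m) (⋃₀ 𝒱 \ ⋃₀ 𝒱₀) = 0 := by
  classical
  set P := infinitePi (fun _ : ι => m) with hP
  set S : Set ℝ≥0∞ := {c | ∃ 𝒞 ⊆ 𝒱, 𝒞.Countable ∧ P (⋃₀ 𝒞) = c} with hS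
  have hSne : S.Nonempty := ⟨_, ∅, Set.empty_subset _, Set.countable_empty, rfl⟩
  obtain ⟨u, _, hulim, huS⟩ := exists_seq_tendsto_sSup hSne (OrderTop.bddAbove S)
  choose 𝒞 h𝒞sub h𝒞c h𝒞 using huS
  set 𝒱₀ : Set (Set (ι → W)) := ⋃ n, 𝒞 n with h𝒱₀
  have hsub : 𝒱₀ ⊆ 𝒱 := Set.iUnion_subset h𝒞sub
  have hcount : 𝒱₀.Countable := Set.countable_iUnion h𝒞c
  have hmeas : ∀ 𝒟 ⊆ 𝒱, 𝒟.Countable → MeasurableSet (⋃₀ 𝒟) := fun 𝒟 h1 h2 =>
    MeasurableSet.sUnion h2 (fun V hV => BC_measurable (h𝒱 (h1 hV)))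
  have hG₀ := hmeas 𝒱₀ hsub hcount
  have hmax : sSup S ≤ P (⋃₀ 𝒱₀) := by
    refine le_of_tendsto' hulim (fun n => ?_)
    rw [← h𝒞 n]
    exact measure_mono (Set.sUnion_subset_sUnion (Set.subset_iUnion 𝒞 n))
  have hnull : ∀ V ∈ 𝒱, P (V \ ⋃₀ 𝒱₀) = 0 := by
    intro V hV
    have h1 : P (⋃₀ (insert V 𝒱₀)) ≤ P (⋃₀ 𝒱₀) := by
      refine le_trans (le_sSup ?_) hmax
      exact ⟨insert V 𝒱₀, Set.insert_subset hV hsub, hcount.insert V, rfl⟩
    have h2 : V \ ⋃₀ 𝒱₀ = ⋃₀ (insert V 𝒱₀) \ ⋃₀ 𝒱₀ := by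
      rw [Set.sUnion_insert, Set.union_sdiff_right]
    rw [h2, measure_sdiff (by rw [Set.sUnion_insert]; exact Set.subset_union_right)
      hG₀.nullMeasurableSet (measure_ne_top _ _)]
    exact tsub_eq_zero_of_le h1
  refine ⟨𝒱₀, hsub, hcount, ?_⟩
  -- the supports
  have hrep : ∀ V : Set (ι → W), V ∈ 𝒱 → ∃ (U : ι → Set W) (F : Finset ι),
      (∀ i, i ∈ F → U i ∈ countableBasis W) ∧ V = (F : Set ι).pi U := fun V hV => h𝒱 hV
  choose! U F hU hVeq using hrep
  set J : Set ι := ⋃ V ∈ 𝒱₀, (F V : Set ι) with hJ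
  have hJc : J.Countable := hcount.biUnion (fun V _ => (F V).countable_toSet)
  have hG₀dep : ∀ x y : ι → W, (∀ j ∈ J, x j = y j) → x ∈ ⋃₀ 𝒱₀ → y ∈ ⋃₀ 𝒱₀ := by
    rintro x y hxy ⟨V, hV, hxV⟩
    refine ⟨V, hV, ?_⟩
    rw [hVeq V (hsub hV)] at hxV ⊢
    intro i hi
    rw [← hxy i (Set.mem_biUnion hV hi)]
    exact hxV i hi
  -- small cylinders
  have : Countable J := hJc
  have : Countable (countableBasis W) := countable_countableBasis W
  let cyl : (Σ F' : Finset J, (F' → countableBasis W)) → Set (ι → W) :=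
    fun a => {x | ∀ i : a.1, x ((i : J) : ι) ∈ (a.2 i : Set W)}
  have hbig : P (⋃ a : (Σ F' : Finset J, (F' → countableBasis W)),
      ⋃ _ : P (cyl a \ ⋃₀ 𝒱₀) = 0, (cyl a \ ⋃₀ 𝒱₀)) = 0 := by
    refine measure_iUnion_null (fun a => measure_iUnion_null (fun h => h))
  refine measure_mono_null ?_ hbig
  rintro x ⟨⟨V, hV, hxV⟩, hxG⟩
  let F' : Finset J := (F V).subtype (fun i => i ∈ J)
  have hF' : ∀ i : F', ((i : J) : ι) ∈ F V := fun i => Finset.mem_subtype.1 i.2
  let a : (Σ F' : Finset J, (F' → countableBasis W)) :=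
    ⟨F', fun i => ⟨U V ((i : J) : ι), hU V hV _ (hF' i)⟩⟩
  have hcyl : cyl a = (((F V).filter (fun i => i ∈ J) : Finset ι) : Set ι).pi (U V) := by
    ext y
    simp only [cyl, a, mem_ofPred_eq, Set.mem_pi, Finset.coe_filter]
    constructor
    · rintro h i ⟨hi, hiJ⟩
      exact h ⟨⟨i, hiJ⟩, by simp [F', hi]⟩
    · rintro h i
      exact h _ ⟨hF' i, (i : J).2⟩
  simp only [Set.mem_iUnion]
  refine ⟨a, ?_, ?_, hxG⟩
  · -- null
    have hA : MeasurableSet (cyl a \ ⋃₀ 𝒱₀) := by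
      rw [hcyl]
      refine (MeasurableSet.pi (Finset.countable_toSet _) (fun i hi => ?_)).diff hG₀
      have hi' : i ∈ F V := by
        have := Finset.mem_coe.1 hi
        exact (Finset.mem_filter.1 this).1
      exact (isOpen_of_mem_countableBasis (hU V hV i hi')).measurableSet
    have hB : MeasurableSet ((((F V).filter (fun i => i ∉ J) : Finset ι) : Set ι).pi (U V)) := by
      refine (MeasurableSet.pi (Finset.countable_toSet _) (fun i hi => ?_))
      have hi' : i ∈ F V := by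
        have := Finset.mem_coe.1 hi
        exact (Finset.mem_filter.1 this).1
      exact (isOpen_of_mem_countableBasis (hU V hV i hi')).measurableSet
    have hprod := measure_inter_of_dep (fun _ : ι => m) J hA hB (by
      rintro x y hxy ⟨hx1, hx2⟩
      refine ⟨?_, fun hy => hx2 (hG₀dep y x (fun j hj => (hxy j hj).symm) hy)⟩
      rw [hcyl] at hx1 ⊢
      intro i hi
      have hi' := Finset.mem_filter.1 (Finset.mem_coe.1 hi)
      rw [← hxy i hi'.2]
      exact hx1 i hi) (by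
      intro x y hxy hx i hi
      have hi' := Finset.mem_filter.1 (Finset.mem_coe.1 hi)
      rw [← hxy i hi'.2]
      exact hx i hi)
    have heq : (cyl a \ ⋃₀ 𝒱₀) ∩ ((((F V).filter (fun i => i ∉ J) : Finset ι) : Set ι).pi (U V))
        = V \ ⋃₀ 𝒱₀ := by
      rw [hcyl]
      ext y
      simp only [Set.mem_inter_iff, Set.mem_sdiff, Set.mem_pi, Finset.coe_filter, mem_ofPred_eq]
      have hVm : y ∈ V ↔ ∀ i ∈ F V, y i ∈ U V i := by
        conv_lhs => rw [hVeq V hV]
        simp [Set.mem_pi]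
      rw [hVm]
      constructor
      · rintro ⟨⟨h1, h2⟩, h3⟩
        refine ⟨fun i hi => ?_, h2⟩
        by_cases hiJ : i ∈ J
        · exact h1 i ⟨hi, hiJ⟩
        · exact h3 i ⟨hi, hiJ⟩
      · rintro ⟨h1, h2⟩
        exact ⟨⟨fun i hi => h1 i hi.1, h2⟩, fun i hi => h1 i hi.1⟩
    rw [heq] at hprod
    have hz : P (cyl a \ ⋃₀ 𝒱₀) * P ((((F V).filter (fun i => i ∉ J) : Finset ι) : Set ι).pi (U V))
        = 0 := by
      rw [← hprod]; exact hnull V hV
    rcases mul_eq_zero.1 hz with h | h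
    · exact h
    · exfalso
      rw [hP, infinitePi_pi _ (fun i hi => (isOpen_of_mem_countableBasis
        (hU V hV i (Finset.mem_filter.1 hi).1)).measurableSet)] at h
      rw [Finset.prod_eq_zero_iff] at h
      obtain ⟨i, hi, hi0⟩ := h
      have hiF := (Finset.mem_filter.1 hi).1
      exact (isOpen_of_mem_countableBasis (hU V hV i hiF)).measure_ne_zero _
        (nonempty_of_mem_countableBasis (hU V hV i hiF)) hi0
  · -- membership
    intro i
    change x _ ∈ U V _
    rw [hVeq V hV] at hxV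
    exact hxV _ (hF' i)

omit mW [BorelSpace W] in
theorem open_eq_sUnion {O : Set (ι → W)} (hO : IsOpen O) :
    O = ⋃₀ {V | V ∈ BC ι W ∧ V ⊆ O} := by
  apply Set.Subset.antisymm
  · intro x hx
    obtain ⟨V, hV, hxV, hVO⟩ := BC_basis.exists_subset_of_mem_open hx hO
    exact ⟨V, ⟨hV, hVO⟩, hxV⟩
  · exact Set.sUnion_subset (fun V hV => hV.2)

theorem open_nullMeasurable {O : Set (ι → W)} (hO : IsOpen O) :
    NullMeasurableSet O (infinitePi (fun _ : ι => m)) := by
  obtain ⟨𝒱₀, hsub, hc, hnull⟩ := lindelof (ι := ι) m {V | V ∈ BC ι W ∧ V ⊆ O} (fun V hV => hV.1)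
  rw [← open_eq_sUnion hO] at hnull
  have hm : MeasurableSet (⋃₀ 𝒱₀) := MeasurableSet.sUnion hc (fun V hV => BC_measurable (hsub hV).1)
  have hsubO : ⋃₀ 𝒱₀ ⊆ O := Set.sUnion_subset (fun V hV => (hsub hV).2)
  have : O = ⋃₀ 𝒱₀ ∪ (O \ ⋃₀ 𝒱₀) := (Set.union_sdiff_cancel hsubO).symm
  rw [this]
  exact hm.nullMeasurableSet.union (NullMeasurableSet.of_null hnull)

end Cyl

/-! ### Countable determination and inner regularity -/

section Det
variable {ι : Type*} {W : Type*} [mW : MeasurableSpace W]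

/-- sets determined by countably many coordinates -/
def Det (A : Set (ι → W)) : Prop :=
  ∃ (J : Set ι) (A' : Set (J → W)), J.Countable ∧ MeasurableSet A' ∧ A = J.domRestrict ⁻¹' A'

theorem Det.of_subset {A : Set (ι → W)} {J K : Set ι} (hJK : J ⊆ K) {A' : Set (J → W)}
    (hA' : MeasurableSet A') (h : A = J.domRestrict ⁻¹' A') :
    ∃ A'' : Set (K → W), MeasurableSet A'' ∧ A = K.domRestrict ⁻¹' A'' := by
  refine ⟨(fun (x : K → W) (j : J) => x ⟨j, hJK j.2⟩) ⁻¹' A', ?_, ?_⟩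
  · apply MeasurableSet.preimage hA'
    rw [measurable_pi_iff]; intro j
    exact measurable_pi_apply _
  · rw [h]; rfl

/-- the σ-algebra of sets determined by countably many coordinates -/
@[instance_reducible]
def detSigma : MeasurableSpace (ι → W) where
  MeasurableSet' A := Det A
  measurableSet_empty := ⟨∅, ∅, Set.countable_empty, MeasurableSet.empty, by simp⟩
  measurableSet_compl A := by
    rintro ⟨J, A', hJ, hA', rfl⟩
    exact ⟨J, A'ᶜ, hJ, hA'.compl, by simp⟩
  measurableSet_iUnion A hA := by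
    choose J A' hJ hA' hAA using hA
    have hK : (⋃ n, J n).Countable := Set.countable_iUnion hJ
    have := fun n => Det.of_subset (Set.subset_iUnion J n) (hA' n) (hAA n)
    choose A'' hA'' hAA'' using this
    refine ⟨⋃ n, J n, ⋃ n, A'' n, hK, MeasurableSet.iUnion hA'', ?_⟩
    rw [Set.preimage_iUnion]
    exact Set.iUnion_congr hAA''

theorem det_of_measurable {A : Set (ι → W)} (hA : MeasurableSet A) : Det A := by
  have h : MeasurableSpace.pi ≤ (detSigma : MeasurableSpace (ι → W)) := by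
    unfold MeasurableSpace.pi
    refine iSup_le (fun i => ?_)
    rintro A ⟨B, hB, rfl⟩
    refine ⟨{i}, (fun x : ({i} : Set ι) → W => x ⟨i, rfl⟩) ⁻¹' B, Set.countable_singleton i, ?_, ?_⟩
    · exact measurable_pi_apply _ hB
    · rfl
  exact h A hA

end Det

section Reg
variable {ι : Type*} {W : Type*} [TopologicalSpace W] [SecondCountableTopology W]
  [PseudoMetrizableSpace W]
  [mW : MeasurableSpace W] [BorelSpace W] (m : Measure W) [IsProbabilityMeasure m]

theorem inner_closed {A : Set (ι → W)} (hA : MeasurableSet A) {r : ℝ≥0∞}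
    (hr : r < infinitePi (fun _ : ι => m) A) :
    ∃ K ⊆ A, IsClosed K ∧ MeasurableSet K ∧ r < infinitePi (fun _ : ι => m) K := by
  obtain ⟨J, A', hJ, hA', rfl⟩ := det_of_measurable hA
  have : Countable J := hJ
  have hm : Measurable (J.domRestrict : (ι → W) → (J → W)) := by
    rw [measurable_pi_iff]; intro j; exact measurable_pi_apply _
  have hmap := infinitePi_map_restrict' (fun _ : ι => m) (I := J)
  have hr' : r < infinitePi (fun _ : J => m) A' := by
    rw [← hmap, map_apply hm hA']; exact hr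
  obtain ⟨K, hKA, hKc, hK⟩ := hA'.exists_lt_isClosed_of_ne_top (measure_ne_top _ _) hr'
  have hcont : Continuous (J.domRestrict : (ι → W) → (J → W)) :=
    continuous_pi (fun j => continuous_apply _)
  refine ⟨J.domRestrict ⁻¹' K, Set.preimage_mono hKA, hKc.preimage hcont,
    hm hKc.measurableSet, ?_⟩
  rw [← hmap, map_apply hm hKc.measurableSet] at hK
  exact hK

end Reg

end Pool.Agent.Helper80.QR
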