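import Pool.Agent.Helper80.QR.Theta

open MeasureTheory Measure Set Function Filter Topology ProbabilityTheory
open scoped ENNReal BoundedContinuousFunction

namespace Pool.Agent.Helper80.QR

theorem g_apply_mem_true {p : Wt} {n : ℕ} (h : n ∈ dd p.1) (hf : p.2 n = true) : g p n = 1 := by
  have h1 : n ∈ St p.2 := hf
  have e1 : n ∈ St p.2 ∩ dd p.1 := ⟨h1, h⟩
  have e2 : n ∉ dd p.1 \ St p.2 := fun hh => hh.2 h1
  rw [g, BoundedContinuousFunction.sub_apply, chi_apply_mem e1, chi_apply_notMem e2, sub_zero]

theorem g_apply_mem_false {p : Wt} {n : ℕ} (h : n ∈ dd p.1) (hf : p.2 n = false) :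
    g p n = -1 := by
  have h1 : n ∉ St p.2 := by simp [St, hf]
  have e1 : n ∉ St p.2 ∩ dd p.1 := fun hh => h1 hh.1
  have e2 : n ∈ dd p.1 \ St p.2 := ⟨h, h1⟩
  rw [g, BoundedContinuousFunction.sub_apply, chi_apply_notMem e1, chi_apply_mem e2, zero_sub]

theorem g_apply_notMem {p : Wt} {n : ℕ} (h : n ∉ dd p.1) : g p n = 0 := by
  have e1 : n ∉ St p.2 ∩ dd p.1 := fun hh => h hh.2
  have e2 : n ∉ dd p.1 \ St p.2 := fun hh => h hh.1
  rw [g, BoundedContinuousFunction.sub_apply, chi_apply_notMem e1, chi_apply_notMem e2, sub_zero]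

theorem g_cases (p : Wt) (n : ℕ) : g p n = 1 ∨ g p n = -1 ∨ g p n = 0 := by
  by_cases h : n ∈ dd p.1
  · cases hf : p.2 n
    · right; left; exact g_apply_mem_false h hf
    · left; exact g_apply_mem_true h hf
  · right; right; exact g_apply_notMem h

theorem abs_g_le (p : Wt) (n : ℕ) : |g p n| ≤ 1 := by
  rcases g_cases p n with h | h | h <;> rw [h] <;> norm_num

theorem measurableSet_dd (n : ℕ) : MeasurableSet {p : Wt | n ∈ dd p.1} := by
  have : {p : Wt | n ∈ dd p.1} = ⋂ i ∈ Finset.range (n + 1), {p : Wt | p.1 i n = false} := by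
    ext p
    simp only [dd, mem_ofPred_eq, Set.mem_iInter, Finset.mem_range]
    constructor
    · intro h i hi; exact h i (by omega)
    · intro h i hi; exact h i (by omega)
  rw [this]
  refine Finset.measurableSet_biInter _ (fun i _ => ?_)
  have h1 : Measurable (fun p : Wt => p.1 i n) :=
    (measurable_pi_apply n).comp ((measurable_pi_apply i).comp measurable_fst)
  exact h1 (MeasurableSet.singleton false)

theorem measurable_snd_apply (n : ℕ) : Measurable (fun p : Wt => p.2 n) :=
  (measurable_pi_apply n).comp measurable_snd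

open Classical in
theorem measurable_g (n : ℕ) : Measurable (fun p : Wt => g p n) := by
  have h1 : (fun p : Wt => g p n) = fun p => if n ∈ dd p.1 then
      (if p.2 n = true then (1 : ℝ) else -1) else 0 := by
    funext p
    by_cases h : n ∈ dd p.1
    · rw [if_pos h]
      cases hf : p.2 n
      · rw [g_apply_mem_false h hf]; simp
      · rw [g_apply_mem_true h hf]; simp
    · rw [if_neg h, g_apply_notMem h]
  rw [h1]
  refine Measurable.ite (measurableSet_dd n) (Measurable.ite ?_ measurable_const measurable_const)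
    measurable_const
  exact (measurable_snd_apply n) (MeasurableSet.singleton true)

/-- flip one bit of `f` -/
def flip (m : ℕ) (p : Wt) : Wt := (p.1, fun i => if i = m then !p.2 i else p.2 i)

theorem mp_flip (m : ℕ) : MeasurePreserving (flip m) muW muW := by
  have hb : ∀ i, Measurable (fun b : Bool => if i = m then !b else b) := fun i =>
    measurable_of_countable _
  have h1 : MeasurePreserving (fun (f : ℕ → Bool) i => if i = m then !f i else f i)
      (rho fair) (rho fair) := by
    constructor
    · rw [measurable_pi_iff]; intro i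
      exact (hb i).comp (measurable_pi_apply i)
    · have := infinitePi_map_pi (fun _ : ℕ => fair) (f := fun i b => if i = m then !b else b) hb
      unfold rho
      rw [this]
      congr 1
      funext i
      by_cases hi : i = m
      · simp only [hi, if_true]
        have hm : Measurable (fun b : Bool => !b) := measurable_of_countable _
        have : IsProbabilityMeasure (map (fun b => !b) fair) :=
          isProbabilityMeasure_map hm.aemeasurable
        apply ext_bool'
        rw [map_apply hm (MeasurableSet.singleton _)]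
        have : (fun b : Bool => !b) ⁻¹' {true} = {false} := by ext b; cases b <;> simp
        rw [this]
        unfold fair
        rw [coin_true, coin_false]
        norm_num
      · simp only [hi, if_false]
        exact Measure.map_id
  exact (MeasurePreserving.id (infinitePi (fun j => rho (cj j)))).prod h1

theorem g_flip_ne {m n : ℕ} (h : n ≠ m) (p : Wt) : g (flip m p) n = g p n := by
  have hd : dd (flip m p).1 = dd p.1 := rfl
  have hf : (flip m p).2 n = p.2 n := by simp [flip, h]
  by_cases hn : n ∈ dd p.1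
  · cases hp : p.2 n
    · rw [g_apply_mem_false hn hp, g_apply_mem_false (hd ▸ hn) (hf.trans hp)]
    · rw [g_apply_mem_true hn hp, g_apply_mem_true (hd ▸ hn) (hf.trans hp)]
  · rw [g_apply_notMem hn, g_apply_notMem (hd ▸ hn)]

theorem g_flip_self (m : ℕ) (p : Wt) : g (flip m p) m = - g p m := by
  have hd : dd (flip m p).1 = dd p.1 := rfl
  have hf : (flip m p).2 m = !p.2 m := by simp [flip]
  by_cases hn : m ∈ dd p.1
  · cases hp : p.2 m
    · rw [g_apply_mem_false hn hp, g_apply_mem_true (hd ▸ hn) (hf.trans (by simp [hp]))]; norm_num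
    · rw [g_apply_mem_true hn hp, g_apply_mem_false (hd ▸ hn) (hf.trans (by simp [hp]))]
  · rw [g_apply_notMem hn, g_apply_notMem (hd ▸ hn), neg_zero]

theorem integral_odd (m : ℕ) {F : Wt → ℝ} (hF : Measurable F) (h : ∀ p, F (flip m p) = - F p) :
    ∫ p, F p ∂muW = 0 := by
  have h1 : ∫ p, F (flip m p) ∂muW = ∫ p, F p ∂muW := by
    rw [← integral_map (mp_flip m).measurable.aemeasurable hF.aestronglyMeasurable,
      (mp_flip m).map_eq]
  simp only [h, integral_neg] at h1
  linarith

theorem integral_g_mul {n m : ℕ} (h : n ≠ m) : ∫ p, g p n * g p m ∂muW = 0 :=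
  integral_odd m ((measurable_g n).mul (measurable_g m)) (fun p => by
    rw [g_flip_ne h, g_flip_self]; ring)

theorem prob_dd (n : ℕ) : (1 : ℝ) / 2 ≤ muW.real {p : Wt | n ∈ dd p.1} := by
  have hc : {p : Wt | n ∈ dd p.1}ᶜ ⊆ ⋃ i ∈ Finset.range (n + 1), {p : Wt | p.1 i n = true} := by
    intro p hp
    simp only [dd, mem_compl_iff, mem_ofPred_eq, not_forall] at hp
    obtain ⟨i, hi, hne⟩ := hp
    simp only [Set.mem_iUnion, Finset.mem_range, mem_ofPred_eq]
    exact ⟨i, by omega, by simpa using hne⟩
  have h1 : ∀ i, muW {p : Wt | p.1 i n = true} = (2 : ℝ≥0∞)⁻¹ ^ (i + 2) := by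
    intro i
    have e1 : MeasurePreserving (fun p : Wt => p.1) muW (infinitePi (fun j => rho (cj j))) :=
      measurePreserving_fst
    have e2 : MeasurePreserving (fun h : ℕ → ℕ → Bool => h i) (infinitePi (fun j => rho (cj j)))
      (rho (cj i)) := measurePreserving_eval_infinitePi _ i
    have e3 : MeasurePreserving (fun r : ℕ → Bool => r n) (rho (cj i)) (cj i) :=
      measurePreserving_eval_infinitePi _ n
    have e4 := (e3.comp (e2.comp e1)).measure_preimage
      (MeasurableSet.singleton true).nullMeasurableSet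
    rw [cj_true] at e4
    exact e4
  have h2 : muW {p : Wt | n ∈ dd p.1}ᶜ ≤ (2 : ℝ≥0∞)⁻¹ := by
    calc muW {p : Wt | n ∈ dd p.1}ᶜ ≤ ∑ i ∈ Finset.range (n + 1), muW {p : Wt | p.1 i n = true} :=
          (measure_mono hc).trans (measure_biUnion_finset_le _ _)
      _ = ∑ i ∈ Finset.range (n + 1), (2 : ℝ≥0∞)⁻¹ ^ (i + 2) := by simp only [h1]
      _ ≤ ∑' i : ℕ, (2 : ℝ≥0∞)⁻¹ ^ (i + 2) := ENNReal.sum_le_tsum _
      _ = (2 : ℝ≥0∞)⁻¹ := by
          simp only [pow_add]
          rw [ENNReal.tsum_mul_right, ENNReal.tsum_geometric, ENNReal.one_sub_inv_two, inv_inv,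
            pow_two, ← mul_assoc, ENNReal.mul_inv_cancel (by norm_num) (by norm_num), one_mul]
  have h3 : muW.real {p : Wt | n ∈ dd p.1}ᶜ ≤ 1 / 2 := by
    have := ENNReal.toReal_mono (by simp) h2
    simpa [Measure.real] using this
  have h4 := measureReal_compl (μ := muW) (measurableSet_dd n)
  rw [h4, probReal_univ] at h3
  linarith

theorem integral_pos_self (n : ℕ) : (1 : ℝ) / 4 ≤ ∫ p in {p | 0 < g p n}, g p n ∂muW := by
  have hms : MeasurableSet {p : Wt | 0 < g p n} := measurableSet_lt measurable_const (measurable_g n)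
  have h1 : ∀ p : Wt, ({p : Wt | 0 < g p n}.indicator (fun p => g p n)) p =
      (1 / 2) * (g p n + {p : Wt | n ∈ dd p.1}.indicator (fun _ => (1 : ℝ)) p) := by
    intro p
    by_cases h : n ∈ dd p.1
    · rw [Set.indicator_of_mem (s := {p : Wt | n ∈ dd p.1}) h]
      cases hf : p.2 n
      · have hg := g_apply_mem_false h hf
        rw [Set.indicator_of_notMem (by simp [hg]), hg]; norm_num
      · have hg := g_apply_mem_true h hf
        rw [Set.indicator_of_mem (by simp [hg]), hg]; norm_num
    · rw [Set.indicator_of_notMem (s := {p : Wt | n ∈ dd p.1}) h]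
      have hg := g_apply_notMem h
      rw [Set.indicator_of_notMem (by simp [hg]), hg]; norm_num
  rw [← integral_indicator hms]
  simp only [h1]
  rw [integral_const_mul, integral_add, integral_indicator_const _ (measurableSet_dd n)]
  · rw [integral_odd n (measurable_g n) (fun p => g_flip_self n p)]
    have := prob_dd n
    simp only [smul_eq_mul, mul_one, zero_add]
    linarith
  · exact Integrable.of_bound (measurable_g n).aestronglyMeasurable 1
      (Eventually.of_forall fun p => abs_g_le p n)
  · exact (integrable_const (1 : ℝ)).indicator (measurableSet_dd n)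

theorem integral_pos_ne {n m : ℕ} (h : n ≠ m) : ∫ p in {p | 0 < g p n}, g p m ∂muW = 0 := by
  have hms : MeasurableSet {p : Wt | 0 < g p n} := measurableSet_lt measurable_const (measurable_g n)
  rw [← integral_indicator hms]
  refine integral_odd m ((measurable_g m).indicator hms) (fun p => ?_)
  by_cases hp : 0 < g p n
  · rw [Set.indicator_of_mem (by simpa [g_flip_ne h] using hp), Set.indicator_of_mem (by simpa using hp),
      g_flip_self]
  · rw [Set.indicator_of_notMem (by simpa [g_flip_ne h] using hp),
      Set.indicator_of_notMem (by simpa using hp), neg_zero]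

theorem muW_singleton (p : Wt) : muW {p} = 0 := by
  have h1 : ({p} : Set Wt) ⊆ Set.univ ×ˢ {p.2} := by
    rintro q rfl; simp
  refine measure_mono_null h1 ?_
  unfold muW
  rw [prod_prod, measure_univ, one_mul]
  have h2 : ∀ N : ℕ, rho fair {p.2} ≤ (2 : ℝ≥0∞)⁻¹ ^ N := by
    intro N
    have h3 : ({p.2} : Set (ℕ → Bool)) ⊆ Set.pi (Finset.range N : Set ℕ) (fun i => {p.2 i}) := by
      rintro q rfl i _; simp
    refine (measure_mono h3).trans ?_
    unfold rho
    rw [infinitePi_pi _ (fun i _ => MeasurableSet.singleton _)]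
    have h4 : ∀ b, fair {b} = (2 : ℝ≥0∞)⁻¹ := by
      intro b
      unfold fair
      cases b
      · rw [coin_false, one_div, ENNReal.one_sub_inv_two]
      · rw [coin_true, one_div]
    simp [h4]
  have h5 : Tendsto (fun N : ℕ => (2 : ℝ≥0∞)⁻¹ ^ N) atTop (𝓝 0) :=
    ENNReal.tendsto_pow_atTop_nhds_zero_of_lt_one (by simp)
  exact le_antisymm (ge_of_tendsto' h5 h2) zero_le

end Pool.Agent.Helper80.QR
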